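import Pool.Agent.Work.MP_b5407d_pos_helper13.POSFinal
import Pool.Agent.Work.MP_b5407d_pos_helper9.Za
import Pool.Agent.Work.MP_b5407d_lbm_helper97.Final

/-! # MP_b5407d_gt: `POS` and the planar inequalities (helper97, final assembly) -/

set_option autoImplicit false
open MeasureTheory

namespace Pool.LBM

/-- entrywise positivity -/
theorem pos : POS :=
  Pool.Agent.Work.MP_b5407d_pos_h13.POS_of_Za Pool.Agent.Work.MP_b5407d_pos_h9.LA.sza

end Pool.LBM
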