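import Pool.Agent.Work.MP_b5407d_pos_helper47.W
import Pool.Agent.Work.MP_b5407d_pos_helper9.LamPos

/-! # MP_b5407d_gt (POS), `r = 0`, LAST: the path identities for `Lam` (helper97) -/

set_option autoImplicit false

open MeasureTheory Set Filter Topology

namespace Pool.Agent.Work.MP_b5407d_nc_h97

open Pool.LBM Pool.Agent.Work.MP_b5407d_pos_h9.FV Pool.Agent.Work.MP_b5407d_pos_h47
open Pool.Agent.Work.MP_b5407d_pos_h9.LA

section
variable {v w : ℝ} {a b : ℕ → ℝ} {m : ℕ}

lemma dxi (s t : ℝ) : IntervalIntegrable (fun t => (pe v w a b t)⁻¹ * dpl a t) volume s t :=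
  (Rg.cmul peiAC.cont (plAC a).rg).int s t

lemma dyi (s t : ℝ) : IntervalIntegrable (fun t => (pe v w a b t)⁻¹ * dpl b t) volume s t :=
  (Rg.cmul peiAC.cont (plAC b).rg).int s t

lemma lamRg (P : ℝ) : Rg (lamI v w a b m P) := by
  have h1 : Rg (fun t => (pX v w a b P - pX v w a b t) * (pe v w a b t)⁻¹ * dpl b t) :=
    Rg.cmul ((continuous_const.sub XAC.cont).mul peiAC.cont) (plAC b).rg
  have h2 : Rg (fun t => (pY v w a b m P - pY v w a b m t) * (pe v w a b t)⁻¹ * dpl a t) :=
    Rg.cmul ((continuous_const.sub (YAC m).cont).mul peiAC.cont) (plAC a).rg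
  have h3 := h1.sub h2
  have e : (fun t => (pX v w a b P - pX v w a b t) * (pe v w a b t)⁻¹ * dpl b t -
      (pY v w a b m P - pY v w a b m t) * (pe v w a b t)⁻¹ * dpl a t) =
      lamI v w a b m P := by
    funext t; unfold lamI; ring
  rwa [e] at h3

lemma lamii (P s t : ℝ) : IntervalIntegrable (lamI v w a b m P) volume s t := (lamRg P).int s t

/-- `e_P - e_t` -/
lemma e_diff (h0 : a 0 = 0) (P t : ℝ) : pe v w a b P - pe v w a b t =
    -(v * (pX v w a b P - pX v w a b t)) - w * (pY v w a b m P - pY v w a b m t) := by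
  rw [e_rel h0 m P, e_rel h0 m t]
  unfold ef
  ring

/-- horizontal form -/
lemma Xf_gen (h0 : a 0 = 0) (P s t : ℝ) :
    pe v w a b P * (∫ u in s..t, (pe v w a b u)⁻¹ * dpl a u) =
      w * (∫ u in s..t, lamI v w a b m P u) +
      (pX v w a b P - pX v w a b s) * (pe v w a b s)⁻¹ -
      (pX v w a b P - pX v w a b t) * (pe v w a b t)⁻¹ := by
  have h := (((AC.const (pX v w a b P)).sub (XAC (v := v) (w := w) (a := a) (b := b))).mul
    (peiAC (v := v) (w := w) (a := a) (b := b))).congr
    (g' := fun u => w * lamI v w a b m P u -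
      pe v w a b P * ((pe v w a b u)⁻¹ * dpl a u)) (fun u => by
        have h1 := e_diff (v := v) (w := w) (b := b) (m := m) h0 P u
        have h2 : pe v w a b u * (pe v w a b u)⁻¹ = 1 := mul_inv_cancel₀ (pe_pos u).ne'
        unfold lamI
        linear_combination ((pe v w a b u)⁻¹ * dpl a u) * h1)
  have h3 := h.eq s t
  rw [intervalIntegral.integral_sub ((lamii P s t).const_mul w) ((dxi s t).const_mul _),
    intervalIntegral.integral_const_mul, intervalIntegral.integral_const_mul] at h3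
  linarith

/-- vertical form -/
lemma Yf_gen (h0 : a 0 = 0) (P s t : ℝ) :
    pe v w a b P * (∫ u in s..t, (pe v w a b u)⁻¹ * dpl b u) =
      -(v * (∫ u in s..t, lamI v w a b m P u)) +
      (pY v w a b m P - pY v w a b m s) * (pe v w a b s)⁻¹ -
      (pY v w a b m P - pY v w a b m t) * (pe v w a b t)⁻¹ := by
  have h := (((AC.const (pY v w a b m P)).sub (YAC (v := v) (w := w) (a := a) (b := b) m)).mul
    (peiAC (v := v) (w := w) (a := a) (b := b))).congr
    (g' := fun u => -v * lamI v w a b m P u -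
      pe v w a b P * ((pe v w a b u)⁻¹ * dpl b u)) (fun u => by
        have h1 := e_diff (v := v) (w := w) (b := b) (m := m) h0 P u
        have h2 : pe v w a b u * (pe v w a b u)⁻¹ = 1 := mul_inv_cancel₀ (pe_pos u).ne'
        unfold lamI
        linear_combination ((pe v w a b u)⁻¹ * dpl b u) * h1)
  have h3 := h.eq s t
  rw [intervalIntegral.integral_sub ((lamii P s t).const_mul (-v)) ((dyi s t).const_mul _),
    intervalIntegral.integral_const_mul, intervalIntegral.integral_const_mul] at h3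
  linarith

/-- (Xf) -/
theorem Xf (h : Std m 0 a b) (P : ℝ) :
    pe v w a b P * (∫ t in (m : ℝ)..P, (pe v w a b t)⁻¹ * dpl a t) =
      (pX v w a b P - w * pJ v w a b m) / pe v w a b m +
        w * ∫ t in (m : ℝ)..P, lamI v w a b m P t := by
  have h1 := Xf_gen (v := v) (w := w) (b := b) (m := m) h.a0 P m P
  rw [X_m h] at h1
  rw [h1, div_eq_mul_inv]; ring

/-- (Yf) -/
theorem Yf (h : Std m 0 a b) (P : ℝ) :
    pe v w a b P * (∫ t in (m : ℝ)..P, (pe v w a b t)⁻¹ * dpl b t) =
      (pY v w a b m P - mE w (b m)) / pe v w a b m -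
        v * ∫ t in (m : ℝ)..P, lamI v w a b m P t := by
  have h1 := Yf_gen (v := v) (w := w) (b := b) (m := m) h.a0 P m P
  rw [Y_m h] at h1
  rw [h1, div_eq_mul_inv]; ring

/-- (Xf') -/
theorem Xf' (h : Std m 0 a b) (P : ℝ) :
    pe v w a b P * (∫ t in P..1, (pe v w a b t)⁻¹ * dpl a t) =
      -((pX v w a b P - mE v (a 1)) / pe v w a b 1) +
        w * ∫ t in P..1, lamI v w a b m P t := by
  have h1 := Xf_gen (v := v) (w := w) (b := b) (m := m) h.a0 P P 1
  rw [X_1 h] at h1
  rw [h1, div_eq_mul_inv]; ring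

/-- (Yf') -/
theorem Yf' (h : Std m 0 a b) (P : ℝ) :
    pe v w a b P * (∫ t in P..1, (pe v w a b t)⁻¹ * dpl b t) =
      -((pY v w a b m P - v * pJ v w a b m) / pe v w a b 1) -
        v * ∫ t in P..1, lamI v w a b m P t := by
  have h1 := Yf_gen (v := v) (w := w) (b := b) (m := m) h.a0 P P 1
  rw [Y_1 h] at h1
  rw [h1, div_eq_mul_inv]; ring

/-- (Bf) -/
theorem Bf (h : Std m 0 a b) :
    (∫ t in (m : ℝ)..1, (pe v w a b t)⁻¹ * dpl a t) =
      w * pd v w a b m + mE v (a 1) / pe v w a b 1 := by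
  have hb' : b 1 = b 0 := by
    have h1 := h.br
    have h2 := h.br1
    rw [zero_add] at h2
    rw [h1, h2]
  have hc : Continuous (fun t => mE v (pl a t) * (pe v w a b t)⁻¹) :=
    (mvAC v a).cont.mul peiAC.cont
  have hi : ∀ s t, IntervalIntegrable (fun t => (mE v (pl a t) * (pe v w a b t)⁻¹) * dpl b t)
      volume s t := fun s t => (Rg.cmul hc (plAC b).rg).int s t
  have hd : pd v w a b m = ∫ t in (1 : ℝ)..m, (mE v (pl a t) * (pe v w a b t)⁻¹) * dpl b t := by
    rw [← int_b0 hb' m hi]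
    unfold pd
    refine intervalIntegral.integral_congr fun t _ => ?_
    simp only [div_eq_mul_inv]
  have h1 := ((mvAC v a).mul (peiAC (v := v) (w := w) (a := a) (b := b))).congr
    (g' := fun t => (pe v w a b t)⁻¹ * dpl a t +
      w * ((mE v (pl a t) * (pe v w a b t)⁻¹) * dpl b t)) (fun t => by
        have h1 := mE_r v (pl a t)
        linear_combination ((pe v w a b t)⁻¹ * dpl a t) * h1)
  have h3 := h1.eq m 1
  have hs : (∫ t in (m : ℝ)..1, (mE v (pl a t) * (pe v w a b t)⁻¹) * dpl b t) =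
      -∫ t in (1 : ℝ)..m, (mE v (pl a t) * (pe v w a b t)⁻¹) * dpl b t :=
    intervalIntegral.integral_symm _ _
  rw [intervalIntegral.integral_add (dxi _ _) ((hi _ _).const_mul w),
    intervalIntegral.integral_const_mul, hs, ← hd,
    Pool.Agent.Work.MP_b5407d_pos_h47.pl_nat, h.am, mE_0] at h3
  have h4 : pl a 1 = a 1 := by
    have := Pool.Agent.Work.MP_b5407d_pos_h47.pl_nat a 1
    simpa using this
  rw [h4] at h3
  rw [div_eq_mul_inv]
  linarith

lemma pe_m (h : Std m 0 a b) : pe v w a b m = 1 - w * mE w (b m) := by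
  have h1 := mE_r w (b m)
  unfold pe
  rw [Pool.Agent.Work.MP_b5407d_pos_h47.pl_nat, Pool.Agent.Work.MP_b5407d_pos_h47.pl_nat, h.am, h1]
  simp

lemma pe_1 (h : Std m 0 a b) : pe v w a b 1 = 1 - v * mE v (a 1) := by
  have h1 := mE_r v (a 1)
  have e1 : pl a 1 = a 1 := by
    have := Pool.Agent.Work.MP_b5407d_pos_h47.pl_nat a 1
    simpa using this
  have e2 : pl b 1 = b 1 := by
    have := Pool.Agent.Work.MP_b5407d_pos_h47.pl_nat b 1
    simpa using this
  have e3 : b 1 = 0 := h.br1
  unfold pe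
  rw [e1, e2, e3, h1]
  simp

/-- (L) -/
theorem Lid (hw : w ≠ 0) (h : Std m 0 a b) (P : ℝ) :
    pd v w a b m * pe v w a b P = pJ v w a b m +
      (mE w (b m) * pX v w a b P - pJ v w a b m) / pe v w a b m +
      (mE v (a 1) * pY v w a b m P - pJ v w a b m) / pe v w a b 1 +
      (∫ t in (m : ℝ)..P, lamI v w a b m P t) + ∫ t in P..1, lamI v w a b m P t := by
  have h1 := Xf (v := v) (w := w) h P
  have h2 := Xf' (v := v) (w := w) h P
  have h3 := Bf (v := v) (w := w) h
  have h4 := intervalIntegral.integral_add_adjacent_intervals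
    (dxi (v := v) (w := w) (a := a) (b := b) m P) (dxi P 1)
  have h5 : pe v w a b P = 1 + v * w * pJ v w a b m - v * pX v w a b P -
      w * pY v w a b m P := by
    rw [e_rel h.a0 m P]; rfl
  have e1 := pe_m (v := v) (w := w) h
  have e2 := pe_1 (v := v) (w := w) h
  have n1 : pe v w a b m ≠ 0 := (pe_pos _).ne'
  have n2 : pe v w a b 1 ≠ 0 := (pe_pos _).ne'
  refine mul_left_cancel₀ hw ?_
  have h6 : w * (pd v w a b m * pe v w a b P) = pe v w a b P *
      (∫ t in (m : ℝ)..1, (pe v w a b t)⁻¹ * dpl a t) -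
      pe v w a b P * (mE v (a 1) / pe v w a b 1) := by rw [h3]; ring
  rw [h6, ← h4, mul_add, h1, h2]
  set Q := pe v w a b m with hQ
  set R := pe v w a b 1 with hR
  have k1 : (pX v w a b P - w * pJ v w a b m) / Q = pX v w a b P +
      w * ((mE w (b m) * pX v w a b P - pJ v w a b m) / Q) := by
    field_simp
    rw [e1]; ring
  have k2 : (pX v w a b P - mE v (a 1)) / R + pe v w a b P * (mE v (a 1) / R) =
      pX v w a b P - w * pJ v w a b m - w * ((mE v (a 1) * pY v w a b m P - pJ v w a b m) / R) := by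
    rw [h5]
    field_simp
    rw [e2]; ring
  linear_combination k1 - k2

/-- (super) -/
theorem super (P Q : ℝ) :
    (∫ t in (m : ℝ)..P, lamI v w a b m P t) = (∫ t in (m : ℝ)..Q, lamI v w a b m Q t) +
      (pX v w a b P - pX v w a b Q) * (∫ t in (m : ℝ)..Q, (pe v w a b t)⁻¹ * dpl b t) -
      (pY v w a b m P - pY v w a b m Q) * (∫ t in (m : ℝ)..Q, (pe v w a b t)⁻¹ * dpl a t) +
      ∫ t in Q..P, lamI v w a b m P t := by
  have h1 := intervalIntegral.integral_add_adjacent_intervals
    (lamii (v := v) (w := w) (a := a) (b := b) (m := m) P m Q) (lamii P Q P)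
  rw [← h1]
  congr 1
  rw [← intervalIntegral.integral_const_mul, ← intervalIntegral.integral_const_mul,
    ← intervalIntegral.integral_add (lamii Q m Q) ((dyi _ _).const_mul _),
    ← intervalIntegral.integral_sub ((lamii Q m Q).add ((dyi _ _).const_mul _))
      ((dxi _ _).const_mul _)]
  refine intervalIntegral.integral_congr fun t _ => ?_
  simp only [lamI]
  ring

end

end Pool.Agent.Work.MP_b5407d_nc_h97
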