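import Pool.Agent.Work.MP_b5407d_nc_helper97.SliceCore

/-! # MP_b5407d_gt (POS), `r = 0`: the one-variable inequality behind (Q3) (helper97) -/

set_option autoImplicit false

open MeasureTheory Set Filter Topology

namespace Pool.Agent.Work.MP_b5407d_nc_h97

theorem slice_core3 {c : ℝ} (hc : 0 < c) {μ e f : ℝ → ℝ} (hμ : Continuous μ) (he : Continuous e)
    (hf : Continuous f) (he0 : ∀ x, 0 < e x) (hf0 : ∀ x, 0 < f x)
    (hq : ∀ x y z, 0 ≤ x → x ≤ y → y ≤ z → z ≤ c → min (μ x) (μ z) ≤ μ y)
    (hE : (∫ x in (0 : ℝ)..c, e x * μ x) < μ 0 * ∫ x in (0 : ℝ)..c, e x) :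
    (∫ x in (0 : ℝ)..c, (e x * (∫ s in x..c, μ s * f s) + (∫ s in x..c, e s * μ s) * f x)) <
      (∫ x in (0 : ℝ)..c, e x) * ∫ x in (0 : ℝ)..c, μ x * f x := by
  have hμf : Continuous fun x => μ x * f x := hμ.mul hf
  have heμ : Continuous fun x => e x * μ x := he.mul hμ
  have hDl : Continuous (fun x => ∫ s in x..c, μ s * f s) :=
    continuous_iff_continuousAt.2 fun x => (intervalIntegral.integral_hasDerivAt_left
      (hμf.intervalIntegrable x c) (hμf.stronglyMeasurable.stronglyMeasurableAtFilter)
      hμf.continuousAt).continuousAt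
  have hJl : Continuous (fun x => ∫ s in x..c, e s * μ s) :=
    continuous_iff_continuousAt.2 fun x => (intervalIntegral.integral_hasDerivAt_left
      (heμ.intervalIntegrable x c) (heμ.stronglyMeasurable.stronglyMeasurableAtFilter)
      heμ.continuousAt).continuousAt
  have hEl : Continuous (fun x => ∫ s in x..c, e s) :=
    continuous_iff_continuousAt.2 fun x => (intervalIntegral.integral_hasDerivAt_left
      (he.intervalIntegrable x c) (he.stronglyMeasurable.stronglyMeasurableAtFilter)
      he.continuousAt).continuousAt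
  have hR : Continuous (fun x => ∫ s in (0 : ℝ)..x, e s) :=
    continuous_iff_continuousAt.2 fun x => (intervalIntegral.integral_hasDerivAt_right
      (he.intervalIntegrable 0 x) (he.stronglyMeasurable.stronglyMeasurableAtFilter)
      he.continuousAt).continuousAt
  set Ψ : ℝ → ℝ := fun x => μ x * (∫ s in x..c, e s) - ∫ s in x..c, e s * μ s with hΨ
  have hΨc : Continuous Ψ := (hμ.mul hEl).sub hJl
  have hsplit : ∀ x, (∫ s in (0 : ℝ)..c, e s) = (∫ s in (0 : ℝ)..x, e s) + ∫ s in x..c, e s :=
    fun x => (intervalIntegral.integral_add_adjacent_intervals (he.intervalIntegrable 0 x)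
      (he.intervalIntegrable x c)).symm
  have hp := parts he hμf c
  have key : (∫ x in (0 : ℝ)..c, e x) * (∫ x in (0 : ℝ)..c, μ x * f x) -
      (∫ x in (0 : ℝ)..c, (e x * (∫ s in x..c, μ s * f s) + (∫ s in x..c, e s * μ s) * f x)) =
      ∫ x in (0 : ℝ)..c, f x * Ψ x := by
    have e2 : (∫ x in (0 : ℝ)..c, f x * Ψ x) = ∫ x in (0 : ℝ)..c,
        ((∫ x in (0 : ℝ)..c, e x) * (μ x * f x) -
        ((∫ s in (0 : ℝ)..x, e s) * (μ x * f x) + (∫ s in x..c, e s * μ s) * f x)) := by
      refine icongr 0 c fun x => ?_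
      simp only [hΨ]
      rw [hsplit x]
      ring
    rw [e2, isub (ccm _ hμf) (cadd (cmul hR hμf) (cmul hJl hf)), icm,
      iadd (cmul hR hμf) (cmul hJl hf), iadd (cmul he hDl) (cmul hJl hf), hp]
  -- form of Ψ
  have hform : ∀ x y k, k * (∫ s in x..y, e s) - (∫ s in x..y, e s * μ s) =
      ∫ s in x..y, e s * (k - μ s) := by
    intro x y k
    rw [← icm, ← isub (ccm _ he) heμ]
    refine icongr x y fun s => ?_
    ring
  have hΨ0 : 0 < Ψ 0 := by simp only [hΨ]; linarith
  have hnn : ∀ x ∈ Icc 0 c, 0 ≤ Ψ x := by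
    intro x hx
    by_cases hex : ∃ s ∈ Icc x c, μ x < μ s
    · obtain ⟨s, hs, hxs⟩ := hex
      have h0x : μ 0 ≤ μ x := by
        have := hq 0 x s le_rfl hx.1 hs.1 hs.2
        rcases min_le_iff.1 this with h1 | h1
        · exact h1
        · linarith
      have h1 : Ψ 0 ≤ Ψ x := by
        have e1 : Ψ 0 = (∫ s in (0 : ℝ)..x, e s * (μ 0 - μ s)) +
            ∫ s in x..c, e s * (μ 0 - μ s) := by
          have hcc : Continuous fun s => e s * (μ 0 - μ s) := he.mul (continuous_const.sub hμ)
          rw [intervalIntegral.integral_add_adjacent_intervals (hcc.intervalIntegrable 0 x)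
            (hcc.intervalIntegrable x c), ← hform]
        have e2 : (∫ s in (0 : ℝ)..x, e s * (μ 0 - μ s)) ≤ 0 := by
          have e3 : 0 ≤ ∫ s in (0 : ℝ)..x, e s * (μ s - μ 0) :=
            intervalIntegral.integral_nonneg hx.1 fun t ht => by
              have := hq 0 t x le_rfl ht.1 ht.2 hx.2
              rw [min_eq_left h0x] at this
              exact mul_nonneg (he0 t).le (sub_nonneg.2 this)
          have e4 : (∫ s in (0 : ℝ)..x, e s * (μ 0 - μ s)) =
              -∫ s in (0 : ℝ)..x, e s * (μ s - μ 0) := by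
            rw [← intervalIntegral.integral_neg]
            refine icongr 0 x fun s => ?_
            ring
          linarith
        have e5 : (∫ s in x..c, e s * (μ 0 - μ s)) ≤ Ψ x := by
          have e6 : Ψ x = ∫ s in x..c, e s * (μ x - μ s) := by
            simp only [hΨ]; rw [hform]
          rw [e6]
          refine intervalIntegral.integral_mono_on hx.2
            ((he.mul (continuous_const.sub hμ)).intervalIntegrable x c)
            ((he.mul (continuous_const.sub hμ)).intervalIntegrable x c) fun t _ => ?_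
          exact mul_le_mul_of_nonneg_left (by linarith) (he0 t).le
        linarith
      linarith
    · push Not at hex
      have e6 : Ψ x = ∫ s in x..c, e s * (μ x - μ s) := by
        simp only [hΨ]; rw [hform]
      rw [e6]
      exact intervalIntegral.integral_nonneg hx.2 fun t ht =>
        mul_nonneg (he0 t).le (sub_nonneg.2 (hex t ht))
  have hpos : 0 < ∫ x in (0 : ℝ)..c, f x * Ψ x :=
    intervalIntegral.integral_pos hc (hf.mul hΨc).continuousOn
      (fun s hs => mul_nonneg (hf0 s).le (hnn s ⟨hs.1.le, hs.2⟩))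
      ⟨0, ⟨le_rfl, hc.le⟩, mul_pos (hf0 0) hΨ0⟩
  linarith

end Pool.Agent.Work.MP_b5407d_nc_h97
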