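import Pool.Agent.Work.MP_b5407d_nc_helper97.QSlice
import Pool.Agent.Work.MP_b5407d_nc_helper97.SliceCore3
import Pool.Agent.Work.MP_b5407d_nc_helper97.Lam
import Pool.Agent.Work.MP_b5407d_pos_helper13.NC1

/-! # MP_b5407d_gt (POS), `r = 0`, LAST: (Q1), (Q2), (Q3) and mirrors (helper97) -/

set_option autoImplicit false

open MeasureTheory Set Filter Topology

namespace Pool.Agent.Work.MP_b5407d_nc_h97

open Pool.LBM Pool.LBM.Path Pool.Agent.Work.MP_b5407d_pos_h13
open Pool.Agent.Work.MP_b5407d_pos_h47 (Spl exists_spl pY YAC X_1 X_m Y_1 Y_m X_pq)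

section
variable {m p q : ℕ} {a b : ℕ → ℝ} {v w : ℝ}

theorem spl_inc (S : Spl m a b p q) {K : ℕ} (hK : K ≤ q) : ∀ j < K, a j ≤ a (j + 1) := by
  intro j hj
  rcases Nat.lt_or_ge j p with h1 | h1
  · have := S.lo j h1; linarith
  · have := S.ve j h1 (by omega); linarith

theorem spl_dec (S : Spl m a b p q) {K : ℕ} (hK : p ≤ K) :
    ∀ j, K ≤ j → j < m → a (j + 1) ≤ a j := by
  intro j hj hjm
  rcases Nat.lt_or_ge j q with h1 | h1
  · have := S.ve j (by omega) h1; linarith
  · have := S.up j h1 hjm; linarith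

theorem spl_max (S : Spl m a b p q) {j : ℕ} (hj : j ≤ m) : a j ≤ a p := by
  rcases Nat.lt_or_ge j p with h1 | h1
  · have h2 := spl_inc S (K := p) S.pq
    have : ∀ n, j ≤ n → n ≤ p → a j ≤ a n := by
      intro n hn hp
      induction n, hn using Nat.le_induction with
      | base => exact le_rfl
      | succ n hn ih => exact (ih (by omega)).trans (h2 n (by omega))
    exact this p h1.le le_rfl
  · have h2 := spl_dec S (K := p) le_rfl
    have : ∀ n, p ≤ n → n ≤ m → a n ≤ a p := by
      intro n hn hp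
      induction n, hn using Nat.le_induction with
      | base => exact le_rfl
      | succ n hn ih => exact (h2 n hn (by omega)).trans (ih (by omega))
    exact this j h1 hj

theorem mu_quasi (h : CP m a b) (w : ℝ) (x y z : ℝ) (hxy : x ≤ y) (hyz : y ≤ z) :
    min (mu w m a b x) (mu w m a b z) ≤ mu w m a b y := by
  unfold mu
  rw [← (mE_mono w).monotone.map_min]
  exact (mE_mono w).monotone (hh_min h hxy hyz _ (min_le_left _ _) (min_le_right _ _))

/-- **(Q1)** -/
theorem Q1 (h : Std m 0 a b) (S : Spl m a b p q)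
    (hρ : mE v (a 1) * mE w (b m) < pJ v w a b m)
    (hE : mE w (b m) * -(∫ t in (q : ℝ)..m, (pe v w a b t)⁻¹ * dpl a t) ≤ pd v w a b m) :
    mE w (b m) * pP v w a b m < pJ v w a b m * pd v w a b m :=
  Qslice v w (CP_of_Std h) h.br h.br1 (by have := S.p1; have := S.pq; omega) S.qm
    (spl_inc S le_rfl) (spl_dec S S.pq) hρ hE

theorem X_K (h : CP m a b) {K : ℕ} (hK : K ≤ m) (hinc : ∀ j < K, a j ≤ a (j + 1)) :
    pX v w a b K = ∫ x in (0 : ℝ)..(a K), el v w m a b x := by
  have := Df_zero (v := v) (w := w) h hK hinc (Nat.cast_nonneg K) le_rfl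
  unfold Df at this
  rw [pl_nat] at this
  have h2 : Psi v w m a b (a K) = ∫ x in (0 : ℝ)..(a K), el v w m a b x := rfl
  linarith

/-- **(Q2)** -/
theorem Q2 (h : Std m 0 a b) (S : Spl m a b p q)
    (hρ : mE v (a 1) * mE w (b m) < pJ v w a b m)
    (hE : mE w (b m) * pX v w a b p ≤ pJ v w a b m) :
    mE w (b m) * pP v w a b m < pJ v w a b m * pd v w a b m := by
  have hC := CP_of_Std h
  have hpm : p < m := lt_of_le_of_lt S.pq S.qm
  have hp0 : 0 < p := S.p1
  have hinc := spl_inc S S.pq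
  have hdec := spl_dec S le_rfl
  have haK : 0 < a p := cp_a_pos hC hp0 hpm
  have hb0 : b 0 = 0 := h.br
  have hbm : 0 < b m := by have := h.left; rw [hb0] at this; exact this
  have hmu0 : mu w m a b 0 = mE w (b m) := by unfold mu; rw [hh_zero hC hb0]
  have hmE0 : mE w 0 = 0 := mE_zero w
  rw [X_K hC hpm.le hinc, J_slice v w hC hpm.le hinc hdec, ← hmu0] at hE
  rw [P_slice v w hC hpm.le hinc hdec, J_slice v w hC hpm.le hinc hdec,
    d_slice v w hC hpm.le hinc hdec, ← hmu0]
  have c1 := el_cont (m := m) (a := a) (b := b) v w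
  have c2 := fu_cont (m := m) (a := a) (b := b) v w
  have c3 := mu_cont (m := m) (a := a) (b := b) w
  have e1 : (∫ x in (0 : ℝ)..(a p), el v w m a b x * mu w m a b x) =
      ∫ x in (0 : ℝ)..(a p), mu w m a b x * el v w m a b x := icongr _ _ fun x => by ring
  have e2 : (∫ x in (0 : ℝ)..(a p), mu w m a b x * fu v w m a b x) =
      ∫ x in (0 : ℝ)..(a p), fu v w m a b x * mu w m a b x := icongr _ _ fun x => by ring
  have e3 : (∫ x in (0 : ℝ)..(a p),
      (el v w m a b x * (∫ s in x..(a p), mu w m a b s * fu v w m a b s) +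
        (∫ s in x..(a p), el v w m a b s * mu w m a b s) * fu v w m a b x)) =
      ∫ x in (0 : ℝ)..(a p),
      (fu v w m a b x * (∫ s in x..(a p), mu w m a b s * el v w m a b s) +
        (∫ s in x..(a p), fu v w m a b s * mu w m a b s) * el v w m a b x) := by
    refine icongr _ _ fun x => ?_
    have g1 : (∫ s in x..(a p), mu w m a b s * fu v w m a b s) =
        ∫ s in x..(a p), fu v w m a b s * mu w m a b s := icongr _ _ fun x => by ring
    have g2 : (∫ s in x..(a p), el v w m a b s * mu w m a b s) =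
        ∫ s in x..(a p), mu w m a b s * el v w m a b s := icongr _ _ fun x => by ring
    rw [g1, g2]; ring
  rw [e1] at hE
  rw [e1, e2, e3, mul_comm (∫ x in (0 : ℝ)..(a p), mu w m a b x * el v w m a b x)]
  refine slice_core haK c3 c2 c1 (fu_pos v w) (el_pos v w) ?_ ?_ ?_ ?_ hE ?_
  · intro x hx
    have := (mE_mono w).monotone (hh_nonneg hC hpm.le hx.1 hx.2)
    rw [hmE0] at this
    exact this
  · rw [hmu0]
    have := (mE_mono w) hbm
    rw [hmE0] at this
    exact this
  · intro x hx h1 s hs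
    have := mu_quasi hC w 0 s x hs.1 hs.2
    rwa [min_eq_left h1] at this
  · intro x hx h1 s hs
    by_contra hn
    push Not at hn
    have := mu_quasi hC w 0 x s hx.1 hs.1
    rcases min_le_iff.1 this with h2 | h2 <;> linarith
  · by_contra hn
    push Not at hn
    have := const_case v w hC hb0 h.br1 hp0 hpm.le hinc hdec hn
    linarith

/-- **(Q3)** -/
theorem Q3 (h : Std m 0 a b) (S : Spl m a b p q)
    (hE : pJ v w a b m < mE w (b m) * pX v w a b p) :
    pP v w a b m < pX v w a b p * pd v w a b m := by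
  have hC := CP_of_Std h
  have hpm : p < m := lt_of_le_of_lt S.pq S.qm
  have hp0 : 0 < p := S.p1
  have hinc := spl_inc S S.pq
  have hdec := spl_dec S le_rfl
  have haK : 0 < a p := cp_a_pos hC hp0 hpm
  have hb0 : b 0 = 0 := h.br
  have hmu0 : mu w m a b 0 = mE w (b m) := by unfold mu; rw [hh_zero hC hb0]
  rw [X_K hC hpm.le hinc, J_slice v w hC hpm.le hinc hdec, ← hmu0] at hE
  rw [P_slice v w hC hpm.le hinc hdec, X_K hC hpm.le hinc,
    d_slice v w hC hpm.le hinc hdec]
  exact slice_core3 haK (mu_cont w) (el_cont v w) (fu_cont v w) (el_pos v w) (fu_pos v w)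
    (fun x y z _ hxy hyz _ => mu_quasi hC w x y z hxy hyz) hE

/-! ### mirrors -/

/-- the mirrored abscissa -/
theorem mr_X (h : Std m 0 a b) {s : ℝ} (hs : s ∈ Icc (1 : ℝ) m) :
    pX w v (mr m 0 b) (mr m 0 a) s = pY v w a b m (m + 1 - s) := by
  have h1 := pX_mr2 (r := 0) (b := b) v w h.a0 h.am h.lt (s := s) (by simpa using hs)
  have h2 := (YAC (v := v) (w := w) (a := a) (b := b) m).eq m (m + 1 - s)
  have e0 : (((m + 0 + 1 : ℕ) : ℝ)) = (m : ℝ) + 1 := by push_cast; ring
  rw [e0, h2, Y_m h, h.br, mE_zero] at h1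
  rw [h1]
  have : MP_b5407d_pos_h13.Yf 0 a b v w 0 = 0 := by simp [MP_b5407d_pos_h13.Yf]
  rw [this]; ring

/-- the mirrored ordinate -/
theorem mr_Y (h : Std m 0 a b) {s : ℝ} (hs : s ∈ Icc (1 : ℝ) m) :
    pY w v (mr m 0 b) (mr m 0 a) m s = pX v w a b (m + 1 - s) := by
  have hm1 : (1 : ℝ) ≤ m := hs.1.trans hs.2
  have h' := std_mr h
  have h1 := (YAC (v := w) (w := v) (a := mr m 0 b) (b := mr m 0 a) m).eq m s
  have h2 : (∫ u in (m : ℝ)..s, pe w v (mr m 0 b) (mr m 0 a) u * dpl (mr m 0 a) u) =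
      ∫ t in (1 : ℝ)..(m + 1 - s), pe v w a b t * dpl a t := by
    have h0 : (m : ℝ) ∈ Icc (((0 : ℕ) : ℝ) + 1) m := by simpa using hm1
    have hs' : s ∈ Icc (((0 : ℕ) : ℝ) + 1) m := by simpa using hs
    have e3 : (∫ u in (m : ℝ)..s, pe w v (mr m 0 b) (mr m 0 a) u * dpl (mr m 0 a) u) =
        ∫ u in (m : ℝ)..s, pe v w a b (((m + 0 + 1 : ℕ) : ℝ) - u) * dpl (mr m 0 a) u := by
      refine intervalIntegral.integral_congr fun u hu => ?_
      simp only [pe_mr2 v w ((ordConnected_Icc.uIcc_subset h0 hs') hu)]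
    rw [e3, int_mr2 a (pe v w a b) h0 hs']
    congr 1
    · push_cast; ring
    · push_cast; ring
  have h3 := (Pool.Agent.Work.MP_b5407d_pos_h47.XAC (v := v) (w := w) (a := a) (b := b)).eq 1
    (m + 1 - s)
  rw [h2, h3, Y_m h', X_1 h] at h1
  have e4 : mr m 0 a m = a 1 := by
    have hm0 : 0 < m := h.lt
    have : ¬ m ≤ 0 := by omega
    simp [mr, this]
  rw [e4] at h1
  linarith

/-- `pY` is constant on horizontal top edges -/
theorem Y_top (h : Std m 0 a b) {k : ℕ} (hk : k ≤ m) (hmax : ∀ j ≤ m, b j ≤ b k)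
    {p' q' : ℕ} (S' : Spl m (mr m 0 b) (mr m 0 a) p' q') :
    pX w v (mr m 0 b) (mr m 0 a) p' = pY v w a b m k := by
  have h' := std_mr h
  have hm0 : 0 < m := h.lt
  have hb0 : b 0 = 0 := h.br
  have hbm : 0 < b m := by have := h.left; rw [hb0] at this; exact this
  have hk0 : 0 < k := by
    rcases Nat.eq_zero_or_pos k with h0 | h0
    · exfalso
      have := hmax m le_rfl
      rw [h0, hb0] at this; linarith
    · exact h0
  set k' := m + 1 - k with hk'
  have hk'1 : 1 ≤ k' := by omega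
  have hk'm : k' ≤ m := by omega
  have hcast : ((k' : ℕ) : ℝ) = (m : ℝ) + 1 - k := by
    rw [hk', Nat.cast_sub (by omega)]; push_cast; ring
  have e1 : pY v w a b m k = pX w v (mr m 0 b) (mr m 0 a) k' := by
    rw [mr_X h (s := k') ⟨by exact_mod_cast hk'1, by exact_mod_cast hk'm⟩, hcast]
    congr 1; ring
  rw [e1]
  -- value of the abscissa
  have e2 : mr m 0 b k' = b k := by
    have h1 : ¬ k' ≤ 0 := by omega
    have h2 : m + 0 + 1 - k' = k := by omega
    simp only [mr, h1, if_false, h2]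
  have e3 : mr m 0 b p' = b (m + 1 - p') := by
    have h1 : ¬ p' ≤ 0 := by have := S'.p1; omega
    have h2 : m + 0 + 1 - p' = m + 1 - p' := by omega
    simp only [mr, h1, if_false, h2]
  have e4 : mr m 0 b k' = mr m 0 b p' := by
    refine le_antisymm (spl_max S' hk'm) ?_
    rw [e2, e3]
    exact hmax _ (by have := S'.p1; omega)
  -- `k'` lies in `[p', q']`
  have hpk : p' ≤ k' := by
    by_contra hn
    push Not at hn
    have h2 := spl_inc S' (K := p') S'.pq
    have h3 : ∀ n, k' + 1 ≤ n → n ≤ p' → mr m 0 b k' < mr m 0 b n := by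
      intro n hn1 hn2
      induction n, hn1 using Nat.le_induction with
      | base => have := S'.lo k' hn; linarith
      | succ n hn1 ih => exact (ih (by omega)).trans_le (h2 n (by omega))
    have := h3 p' (by omega) le_rfl
    linarith
  have hkq : k' ≤ q' := by
    by_contra hn
    push Not at hn
    have h3 : ∀ n, q' + 1 ≤ n → n ≤ m → mr m 0 b n < mr m 0 b q' := by
      intro n hn1 hn2
      induction n, hn1 using Nat.le_induction with
      | base => have := S'.up q' le_rfl (by omega); linarith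
      | succ n hn1 ih =>
        have := S'.up n (by omega) (by omega)
        have := ih (by omega)
        linarith
    have h4 := h3 k' (by omega) hk'm
    have h5 := spl_max S' S'.qm.le
    linarith
  -- `X` is constant on `[p', k']`
  have h6 := (Pool.Agent.Work.MP_b5407d_pos_h47.XAC (v := w) (w := v) (a := mr m 0 b)
    (b := mr m 0 a)).eq p' k'
  have h7 : (∫ u in (p' : ℝ)..k', pe w v (mr m 0 b) (mr m 0 a) u * dpl (mr m 0 b) u) = 0 := by
    have hpk' : (p' : ℝ) ≤ k' := by exact_mod_cast hpk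
    have : (∫ u in (p' : ℝ)..k', pe w v (mr m 0 b) (mr m 0 a) u * dpl (mr m 0 b) u) =
        ∫ u in (p' : ℝ)..k', (0 : ℝ) := by
      refine intervalIntegral.integral_congr_ae ?_
      have hne : ∀ᵐ s : ℝ, s ≠ (k' : ℝ) := by rw [ae_iff]; simp
      filter_upwards [ae_Nt, hne] with s hs hst hsI
      rw [uIoc_of_le hpk'] at hsI
      have hlt : s < k' := lt_of_le_of_ne hsI.2 hst
      have hs0 : 0 < s := lt_of_le_of_lt (Nat.cast_nonneg p') hsI.1
      have hk'm' : (k' : ℝ) ≤ m := by exact_mod_cast hk'm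
      obtain ⟨j, hj, hj1, hj2, hd⟩ := edge_cases (m := m) hs0 (by linarith) hs
      have hpj : p' ≤ j := by
        have h5 := hsI.1
        have : (p' : ℝ) < j + 1 := by linarith
        have : p' < j + 1 := by exact_mod_cast this
        omega
      have hjk : j < k' := by
        have : (j : ℝ) < k' := by linarith
        exact_mod_cast this
      rw [hd (mr m 0 b), S'.ve j hpj (by omega), mul_zero]
    rw [this]; simp
  rw [h7] at h6
  linarith

/-- mirror of **(Q2)** -/
theorem Q2m (h : Std m 0 a b) (hρ : mE v (a 1) * mE w (b m) < pJ v w a b m) {k : ℕ} (hk : k ≤ m)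
    (hmax : ∀ j ≤ m, b j ≤ b k) (hE : mE v (a 1) * pY v w a b m k ≤ pJ v w a b m) :
    mE v (a 1) * pN v w a b m 0 < pJ v w a b m * pd v w a b m := by
  have h' := std_mr h
  obtain ⟨p', q', S'⟩ := exists_spl h'
  have hm0 : 0 < m := h.lt
  have e1 : mr m 0 b 1 = b m := by simp [mr]
  have e2 : mr m 0 a m = a 1 := by
    have : ¬ m ≤ 0 := by omega
    simp [mr, this]
  have eJ := pJ_mr (v := v) (w := w) h
  obtain ⟨d1, d2, d3, d4⟩ := mr4 v w h.a0 h.am h.br h.br1 h.lt
  have h1 := Q2 (v := w) (w := v) h' S' (by rw [e1, e2, eJ, mul_comm]; exact hρ)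
    (by rw [e2, eJ, Y_top h hk hmax S']; exact hE)
  rw [e2, d2, eJ, d1] at h1
  exact h1

/-- mirror of **(Q3)** -/
theorem Q3m (h : Std m 0 a b) {k : ℕ} (hk : k ≤ m)
    (hmax : ∀ j ≤ m, b j ≤ b k) (hE : pJ v w a b m < mE v (a 1) * pY v w a b m k) :
    pN v w a b m 0 < pY v w a b m k * pd v w a b m := by
  have h' := std_mr h
  obtain ⟨p', q', S'⟩ := exists_spl h'
  have hm0 : 0 < m := h.lt
  have e2 : mr m 0 a m = a 1 := by
    have : ¬ m ≤ 0 := by omega
    simp [mr, this]
  have eJ := pJ_mr (v := v) (w := w) h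
  obtain ⟨d1, d2, d3, d4⟩ := mr4 v w h.a0 h.am h.br h.br1 h.lt
  have h1 := Q3 (v := w) (w := v) h' S'
    (by rw [e2, eJ, Y_top h hk hmax S']; exact hE)
  rw [d2, d1, Y_top h hk hmax S'] at h1
  exact h1

end

end Pool.Agent.Work.MP_b5407d_nc_h97
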