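import Pool.Agent.Work.MP_b5407d_nc_helper97.Upper

/-! # MP_b5407d_gt (POS), `r = 0`: (Q), second part (helper97) -/

set_option autoImplicit false

open MeasureTheory Set Filter Topology

namespace Pool.Agent.Work.MP_b5407d_nc_h97

open Pool.LBM Pool.LBM.Path Pool.Agent.Work.MP_b5407d_pos_h13

section
variable {m : ℕ} {a b : ℕ → ℝ} (v w : ℝ)

/-- `e^(-w y) (mE w (y + h) - ..)`: addition -/
theorem mE_split (w y z : ℝ) : mE w z - mE w y = Real.exp (-(w * y)) * mE w (z - y) := by
  have := mE_add w y (z - y)
  rw [sub_add_cancel] at this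
  linarith

theorem mE_split' (w y z : ℝ) : mE (-w) z - mE (-w) y = Real.exp (w * z) * mE w (z - y) := by
  have h1 := mE_split (-w) y z
  rw [h1, mEneg, ← mul_assoc, ← Real.exp_add]
  congr 2; ring

theorem mE_mono (w : ℝ) : StrictMono (mE w) := by
  intro x y hxy
  have h := mE_split w x y
  have h1 : 0 < mE w (y - x) := intervalIntegral.intervalIntegral_pos_of_pos
      ((by fun_prop : Continuous fun s : ℝ => Real.exp (-(w * s))).intervalIntegrable 0 (y - x))
      (fun _ => Real.exp_pos _) (by linarith)
  have := mul_pos (Real.exp_pos (-(w * x))) h1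
  linarith

/-- weight on the lower boundary -/
noncomputable def el (v w : ℝ) (m : ℕ) (a b : ℕ → ℝ) (x : ℝ) : ℝ :=
  Real.exp (-(v * x) - w * yl m a b x)

/-- inverse weight on the upper boundary -/
noncomputable def fu (v w : ℝ) (m : ℕ) (a b : ℕ → ℝ) (x : ℝ) : ℝ :=
  Real.exp (v * x + w * yu m a b x)

/-- the mass of the height -/
noncomputable def mu (w : ℝ) (m : ℕ) (a b : ℕ → ℝ) (x : ℝ) : ℝ := mE w (hh m a b x)

theorem el_cont : Continuous (el v w m a b) := Psi_int_cont v w

theorem fu_cont : Continuous (fu v w m a b) := by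
  have := yu_cont (m := m) (a := a) (b := b)
  unfold fu; fun_prop

theorem mu_cont : Continuous (mu w m a b) := (mE_cont w).comp hh_cont

theorem el_pos (x : ℝ) : 0 < el v w m a b x := Real.exp_pos _

theorem fu_pos (x : ℝ) : 0 < fu v w m a b x := Real.exp_pos _

/-- `Ĵ` -/
noncomputable def Jh (v w : ℝ) (m : ℕ) (a b : ℕ → ℝ) (c x : ℝ) : ℝ :=
  ∫ s in x..c, el v w m a b s * mu w m a b s

theorem Jh_deriv (c x : ℝ) :
    HasDerivAt (Jh v w m a b c) (-(el v w m a b x * mu w m a b x)) x := by
  have h := cmul (el_cont (m := m) (a := a) (b := b) v w) (mu_cont (m := m) (a := a) (b := b) w)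
  exact intervalIntegral.integral_hasDerivAt_left (h.intervalIntegrable x c)
      (h.stronglyMeasurable.stronglyMeasurableAtFilter) h.continuousAt

theorem Jh_cont (c : ℝ) : Continuous (Jh v w m a b c) :=
  continuous_iff_continuousAt.2 fun x => (Jh_deriv v w c x).continuousAt

/-- `q_u - q_l` -/
theorem jl_eq (x : ℝ) : Real.exp (-(v * x)) * mE w (yu m a b x) -
    Real.exp (-(v * x)) * mE w (yl m a b x) = el v w m a b x * mu w m a b x := by
  rw [← mul_sub, mE_split, ← mul_assoc, ← Real.exp_add]
  unfold el mu hh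
  congr 2

theorem dl_eq (x : ℝ) : Real.exp (v * x) * mE (-w) (yu m a b x) -
    Real.exp (v * x) * mE (-w) (yl m a b x) = mu w m a b x * fu v w m a b x := by
  rw [← mul_sub, mE_split', ← mul_assoc, ← Real.exp_add]
  unfold fu mu hh
  ring

/-- `J` -/
theorem J_slice (h : CP m a b) {K : ℕ} (hK : K ≤ m) (hinc : ∀ j < K, a j ≤ a (j + 1))
    (hdec : ∀ j, K ≤ j → j < m → a (j + 1) ≤ a j) :
    pJ v w a b m = ∫ x in (0 : ℝ)..(a K), el v w m a b x * mu w m a b x := by
  have hyl := yl_cont (m := m) (a := a) (b := b)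
  have hyu := yu_cont (m := m) (a := a) (b := b)
  have hE := mE_cont w
  have h1 := path_slice h hK hinc hdec (G := pq v w a b)
    (gl := fun x => Real.exp (-(v * x)) * mE w (yl m a b x))
    (gu := fun x => Real.exp (-(v * x)) * mE w (yu m a b x)) (pq_cont v w a b)
    (by fun_prop) (by fun_prop)
    (fun k hk hak t h1 h2 => by
      show pq v w a b t = _
      rw [yl_path_eq h (by omega) hak h1 h2]; rfl)
    (fun k hk hkm hak t h1 h2 => by
      show pq v w a b t = _
      rw [yu_path_eq h hkm hak h1 h2]; rfl)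
  unfold pJ pL
  rw [h1, ← intervalIntegral.integral_neg]
  refine icongr 0 (a K) fun x => ?_
  rw [← jl_eq]; ring

theorem cEv (a : ℕ → ℝ) : Continuous fun t => Real.exp (v * pl a t) := by
  have := cont_pl a
  fun_prop

/-- `d` -/
theorem d_path (ha0 : a 0 = 0) (ham : a m = 0) :
    pd v w a b m = -∫ t in (0 : ℝ)..m, (Real.exp (v * pl a t) * mE (-w) (pl b t)) * dpl a t := by
  have hec := pe_cont v w a b
  have hen := pe_ne v w a b
  have ha := cont_pl a
  have hbc := cont_pl b
  have cv : Continuous fun t => mE (-v) (pl a t) := (mE_cont _).comp ha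
  have cw : Continuous fun t => mE (-w) (pl b t) := (mE_cont _).comp hbc
  have cv' : Continuous fun t => mE v (pl a t) := (mE_cont _).comp ha
  have cex := cEv v a
  have hg : Continuous fun t => mE v (pl a t) / pe v w a b t := cv'.div hec hen
  have h1 := ftc2 a b (cmul cv cw) (cmul cex cw) hg (fun t ht => by
    have d1 : HasDerivAt (fun t => mE (-v) (pl a t))
        (Real.exp (-(-v * pl a t)) * dpl a t) t :=
      (mE_deriv (-v) (pl a t)).comp t (deriv_pl a ht)
    have d2 : HasDerivAt (fun t => mE (-w) (pl b t))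
        (Real.exp (-(-w * pl b t)) * dpl b t) t :=
      (mE_deriv (-w) (pl b t)).comp t (deriv_pl b ht)
    refine (d1.mul d2).congr_deriv ?_
    have e1 := mEneg v (pl a t)
    have e3 : Real.exp (-(-v * pl a t)) = Real.exp (v * pl a t) := by congr 1; ring
    have e4 : Real.exp (-(-w * pl b t)) = Real.exp (w * pl b t) := by congr 1; ring
    have e5 : (pe v w a b t)⁻¹ = Real.exp (v * pl a t) * Real.exp (w * pl b t) := by
      unfold pe; rw [← Real.exp_neg, ← Real.exp_add]; congr 1; ring
    rw [e3, e4, div_eq_mul_inv, e5, e1]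
    ring) 0 m
  simp only [pl_nat, pl_zero, ha0, ham, mE_zero, zero_mul, sub_zero] at h1
  have hP : pd v w a b m = ∫ t in (0 : ℝ)..m, (mE v (pl a t) / pe v w a b t) *
      dpl b t := rfl
  rw [hP]; linarith

theorem d_slice (h : CP m a b) {K : ℕ} (hK : K ≤ m) (hinc : ∀ j < K, a j ≤ a (j + 1))
    (hdec : ∀ j, K ≤ j → j < m → a (j + 1) ≤ a j) :
    pd v w a b m = ∫ x in (0 : ℝ)..(a K), mu w m a b x * fu v w m a b x := by
  have hyl := yl_cont (m := m) (a := a) (b := b)
  have hyu := yu_cont (m := m) (a := a) (b := b)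
  have hE := mE_cont (-w)
  have hbc := cont_pl b
  have hac := cont_pl a
  have h1 := path_slice h hK hinc hdec
    (G := fun t => Real.exp (v * pl a t) * mE (-w) (pl b t))
    (gl := fun x => Real.exp (v * x) * mE (-w) (yl m a b x))
    (gu := fun x => Real.exp (v * x) * mE (-w) (yu m a b x)) (by fun_prop)
    (by fun_prop) (by fun_prop)
    (fun k hk hak t h1 h2 => by
      show _ = _
      rw [yl_path_eq h (by omega) hak h1 h2])
    (fun k hk hkm hak t h1 h2 => by
      show _ = _
      rw [yu_path_eq h hkm hak h1 h2])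
  rw [d_path v w h.a0 h.am, h1, ← intervalIntegral.integral_neg]
  refine icongr 0 (a K) fun x => ?_
  rw [← dl_eq]; ring

/-- `∫_0^c 1/e_u` -/
theorem X2_slice (h : CP m a b) {K : ℕ} (hK : K ≤ m)
    (hdec : ∀ j, K ≤ j → j < m → a (j + 1) ≤ a j) :
    -(∫ t in (K : ℝ)..m, (pe v w a b t)⁻¹ * dpl a t) = ∫ x in (0 : ℝ)..(a K), fu v w m a b x := by
  rw [up_int hK hdec (fu_cont v w) (fun k hk hkm hak t h1 h2 => by
    unfold fu pe
    rw [yu_path_eq h hkm hak h1 h2, ← Real.exp_neg]
    congr 1; ring), h.am, intervalIntegral.integral_symm, neg_neg]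

/-- `X` on the upper chain -/
theorem X_upper (h : CP m a b) {K : ℕ} (hK : K ≤ m) (hinc : ∀ j < K, a j ≤ a (j + 1))
    (hdec : ∀ j, K ≤ j → j < m → a (j + 1) ≤ a j) {t : ℝ} (h1 : (K : ℝ) ≤ t) (h2 : t ≤ m) :
    pX v w a b t = Psi v w m a b (pl a t) + w * Jh v w m a b (a K) (pl a t) := by
  have hc1 := pe_cont v w a b
  have hc2 : Continuous fun s => el v w m a b (pl a s) := (el_cont v w).comp (cont_pl a)
  have hc3 : Continuous fun s => mu w m a b (pl a s) := (mu_cont w).comp (cont_pl a)
  have hF : Continuous fun s => pX v w a b s - Psi v w m a b (pl a s) -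
      w * Jh v w m a b (a K) (pl a s) :=
    ((pX_cont v w a b).sub ((Psi_cont v w).comp (cont_pl a))).sub
      (continuous_const.mul ((Jh_cont v w (a K)).comp (cont_pl a)))
  have hG : Continuous fun s => pe v w a b s - el v w m a b (pl a s) +
      w * (el v w m a b (pl a s) * mu w m a b (pl a s)) :=
    (hc1.sub hc2).add (continuous_const.mul (hc2.mul hc3))
  have h3 := ftc (F := fun s => pX v w a b s - Psi v w m a b (pl a s) -
      w * Jh v w m a b (a K) (pl a s)) (F' := fun s => (pe v w a b s - el v w m a b (pl a s) +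
      w * (el v w m a b (pl a s) * mu w m a b (pl a s))) * dpl a s) hF (fun s hs => by
      refine (((pX_deriv v w a b hs).sub ((Psi_deriv v w (pl a s)).comp s
        (deriv_pl a hs))).sub (((Jh_deriv v w (a K) (pl a s)).comp s
        (deriv_pl a hs)).const_mul w)).congr_deriv ?_
      unfold el
      ring) (s := K) (t := t) (mul_ii a hG K t)
  have e0 : (∫ s in (K : ℝ)..t, (pe v w a b s - el v w m a b (pl a s) +
      w * (el v w m a b (pl a s) * mu w m a b (pl a s))) * dpl a s) =
      ∫ s in (K : ℝ)..t, (0 : ℝ) := by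
    refine intervalIntegral.integral_congr_ae ?_
    have hne : ∀ᵐ s : ℝ, s ≠ t := by rw [ae_iff]; simp
    filter_upwards [ae_Nt, hne] with s hs hst hsI
    rw [uIoc_of_le h1] at hsI
    have hlt : s < t := lt_of_le_of_ne hsI.2 hst
    have hs0 : 0 < s := lt_of_le_of_lt (Nat.cast_nonneg K) hsI.1
    obtain ⟨k, hk, hk1, hk2, hd⟩ := edge_cases (m := m) hs0 (by linarith) hs
    have hkK : K ≤ k := by
      have h5 := hsI.1
      have : (K : ℝ) < k + 1 := by linarith
      have : K < k + 1 := by exact_mod_cast this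
      omega
    rw [hd a]
    rcases (hdec k hkK hk).eq_or_lt with h4 | h4
    · rw [h4, sub_self, mul_zero]
    · have e1 : pe v w a b s = Real.exp (-(v * pl a s)) * Real.exp (-(w * yu m a b (pl a s))) := by
        rw [yu_path_eq h hk h4 hk1.le hk2.le, pe_eq]
      have e2 : el v w m a b (pl a s) =
          Real.exp (-(v * pl a s)) * Real.exp (-(w * yl m a b (pl a s))) := by
        unfold el; rw [← Real.exp_add]; congr 1
      have e3 := jl_eq (m := m) (a := a) (b := b) v w (pl a s)
      have e4 := mul_mE w (yu m a b (pl a s))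
      have e5 := mul_mE w (yl m a b (pl a s))
      rw [← e3, e1, e2]
      have : Real.exp (-(v * pl a s)) * Real.exp (-(w * yu m a b (pl a s))) -
          Real.exp (-(v * pl a s)) * Real.exp (-(w * yl m a b (pl a s))) +
          w * (Real.exp (-(v * pl a s)) * mE w (yu m a b (pl a s)) -
            Real.exp (-(v * pl a s)) * mE w (yl m a b (pl a s))) = 0 := by
        linear_combination Real.exp (-(v * pl a s)) * (e4 - e5)
      rw [this, zero_mul]
  rw [e0] at h3
  have e6 : pX v w a b K - Psi v w m a b (pl a K) = 0 :=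
    Df_zero h hK hinc (Nat.cast_nonneg K) le_rfl
  have e7 : Jh v w m a b (a K) (a K) = 0 := by simp [Jh]
  simp only [intervalIntegral.integral_zero] at h3
  rw [pl_nat] at h3 e6
  rw [e7, mul_zero, sub_zero, e6, sub_zero] at h3
  linarith

/-- `P` by parts -/
theorem P_path (ha0 : a 0 = 0) (ham : a m = 0) :
    pP v w a b m = -∫ t in (0 : ℝ)..m, (mE v (pl a t) * mE w (pl b t) +
      pX v w a b t * (Real.exp (v * pl a t) * mE (-w) (pl b t))) * dpl a t := by
  have hec := pe_cont v w a b
  have hen := pe_ne v w a b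
  have hXc := pX_cont v w a b
  have ha := cont_pl a
  have hbc := cont_pl b
  have cv : Continuous fun t => mE (-v) (pl a t) := (mE_cont _).comp ha
  have cw : Continuous fun t => mE (-w) (pl b t) := (mE_cont _).comp hbc
  have cv' : Continuous fun t => mE v (pl a t) := (mE_cont _).comp ha
  have cw' : Continuous fun t => mE w (pl b t) := (mE_cont _).comp hbc
  have cex : Continuous fun t => Real.exp (v * pl a t) := by fun_prop
  have hF : Continuous fun t => pX v w a b t * (mE (-v) (pl a t) * mE (-w) (pl b t)) :=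
    hXc.mul (cv.mul cw)
  have hf : Continuous fun t => mE v (pl a t) * mE w (pl b t) +
      pX v w a b t * (Real.exp (v * pl a t) * mE (-w) (pl b t)) :=
    (cv'.mul cw').add (hXc.mul (cex.mul cw))
  have hg : Continuous fun t => pX v w a b t * mE v (pl a t) / pe v w a b t :=
    (hXc.mul cv').div hec hen
  have h1 := ftc2 a b hF hf hg (fun t ht => by
    have d1 : HasDerivAt (fun t => mE (-v) (pl a t))
        (Real.exp (-(-v * pl a t)) * dpl a t) t :=
      (mE_deriv (-v) (pl a t)).comp t (deriv_pl a ht)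
    have d2 : HasDerivAt (fun t => mE (-w) (pl b t))
        (Real.exp (-(-w * pl b t)) * dpl b t) t :=
      (mE_deriv (-w) (pl b t)).comp t (deriv_pl b ht)
    refine ((pX_deriv v w a b ht).mul (d1.mul d2)).congr_deriv ?_
    have e1 := mEneg v (pl a t)
    have e2 := exp_mE_neg w (pl b t)
    have e3 : Real.exp (-(-v * pl a t)) = Real.exp (v * pl a t) := by congr 1; ring
    have e4 : Real.exp (-(-w * pl b t)) = Real.exp (w * pl b t) := by congr 1; ring
    have e5 : (pe v w a b t)⁻¹ = Real.exp (v * pl a t) * Real.exp (w * pl b t) := by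
      unfold pe; rw [← Real.exp_neg, ← Real.exp_add]; congr 1; ring
    have e6 : pe v w a b t = Real.exp (-(v * pl a t)) * Real.exp (-(w * pl b t)) := by
      unfold pe; rw [← Real.exp_add]; congr 1
    have e7 : Real.exp (-(v * pl a t)) * Real.exp (v * pl a t) = 1 := by
      rw [← Real.exp_add]; simp
    simp only [Pi.mul_apply]
    rw [e3, e4, div_eq_mul_inv, e5, e1, e6, ← e2]
    linear_combination (Real.exp (-(w * pl b t)) * mE v (pl a t) * mE (-w) (pl b t) *
      dpl a t) * e7) 0 m
  simp only [pl_nat, pl_zero, ha0, ham, mE_zero, zero_mul, mul_zero, sub_zero] at h1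
  have hP : pP v w a b m = ∫ t in (0 : ℝ)..m, (pX v w a b t * mE v (pl a t) / pe v w a b t) *
      dpl b t := rfl
  rw [← hP] at h1
  linarith

/-- `P` -/
theorem P_slice (h : CP m a b) {K : ℕ} (hK : K ≤ m) (hinc : ∀ j < K, a j ≤ a (j + 1))
    (hdec : ∀ j, K ≤ j → j < m → a (j + 1) ≤ a j) :
    pP v w a b m = ∫ x in (0 : ℝ)..(a K),
      (el v w m a b x * (∫ s in x..(a K), mu w m a b s * fu v w m a b s) +
        (∫ s in x..(a K), el v w m a b s * mu w m a b s) * fu v w m a b x) := by
  have hyl := yl_cont (m := m) (a := a) (b := b)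
  have hyu := yu_cont (m := m) (a := a) (b := b)
  have hE := mE_cont (-w)
  have hE1 := mE_cont w
  have hE2 := mE_cont v
  have hE3 := mE_cont (-v)
  have hbc := cont_pl b
  have hac := cont_pl a
  have hX := pX_cont v w a b
  have hPs := Psi_cont (m := m) (a := a) (b := b) v w
  have hJh := Jh_cont (m := m) (a := a) (b := b) v w (a K)
  have hel := el_cont (m := m) (a := a) (b := b) v w
  have hfu := fu_cont (m := m) (a := a) (b := b) v w
  have hmu := mu_cont (m := m) (a := a) (b := b) w
  have hKm : (K : ℝ) ≤ m := by exact_mod_cast hK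
  have h1 := path_slice h hK hinc hdec
    (G := fun t => mE v (pl a t) * mE w (pl b t) +
      pX v w a b t * (Real.exp (v * pl a t) * mE (-w) (pl b t)))
    (gl := fun x => mE v x * mE w (yl m a b x) +
      Psi v w m a b x * (Real.exp (v * x) * mE (-w) (yl m a b x)))
    (gu := fun x => mE v x * mE w (yu m a b x) +
      (Psi v w m a b x + w * Jh v w m a b (a K) x) *
        (Real.exp (v * x) * mE (-w) (yu m a b x))) (by fun_prop)
    (by fun_prop) (by fun_prop)
    (fun k hk hak t h1 h2 => by
      have hk0 : (0 : ℝ) ≤ t := le_trans (Nat.cast_nonneg k) h1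
      have hkK : (k : ℝ) + 1 ≤ K := by exact_mod_cast hk
      have h3 : pX v w a b t = Psi v w m a b (pl a t) := by
        have := Df_zero (v := v) (w := w) h hK hinc hk0 (h2.trans hkK)
        unfold Df at this
        linarith
      show _ = _
      rw [yl_path_eq h (by omega) hak h1 h2, h3])
    (fun k hk hkm hak t h1 h2 => by
      have hkK : (K : ℝ) ≤ k := by exact_mod_cast hk
      have hkm' : (k : ℝ) + 1 ≤ m := by exact_mod_cast hkm
      show _ = _
      rw [yu_path_eq h hkm hak h1 h2, X_upper v w h hK hinc hdec (hkK.trans h1) (h2.trans hkm')])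
  rw [P_path v w h.a0 h.am, h1, ← intervalIntegral.integral_neg]
  have e1 : ∀ x, -(mE v x * mE w (yl m a b x) +
      Psi v w m a b x * (Real.exp (v * x) * mE (-w) (yl m a b x)) -
      (mE v x * mE w (yu m a b x) +
      (Psi v w m a b x + w * Jh v w m a b (a K) x) *
        (Real.exp (v * x) * mE (-w) (yu m a b x)))) =
      (mE (-v) x * (el v w m a b x * mu w m a b x) - Real.exp (v * x) * Jh v w m a b (a K) x) +
      (Psi v w m a b x * (mu w m a b x * fu v w m a b x) +
        Jh v w m a b (a K) x * fu v w m a b x) := by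
    intro x
    have f1 := jl_eq (m := m) (a := a) (b := b) v w x
    have f2 := dl_eq (m := m) (a := a) (b := b) v w x
    have f3 := mEneg v x
    have f4 : Real.exp (v * x) * Real.exp (-(v * x)) = 1 := by rw [← Real.exp_add]; simp
    have f5 : w * (Real.exp (v * x) * mE (-w) (yu m a b x)) =
        fu v w m a b x - Real.exp (v * x) := by
      have g1 := mul_mE (-w) (yu m a b x)
      have g2 : Real.exp (-(-w * yu m a b x)) = Real.exp (w * yu m a b x) := by
        congr 1; ring
      have g3 : fu v w m a b x = Real.exp (v * x) * Real.exp (w * yu m a b x) := by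
        unfold fu; rw [← Real.exp_add]
      rw [g2] at g1
      rw [g3]
      linear_combination (-Real.exp (v * x)) * g1
    rw [← f1, ← f2, f3]
    linear_combination (mE v x * (mE w (yl m a b x) - mE w (yu m a b x))) * f4 +
      Jh v w m a b (a K) x * f5
  have e2 : (∫ x in (0 : ℝ)..(a K), -(mE v x * mE w (yl m a b x) +
      Psi v w m a b x * (Real.exp (v * x) * mE (-w) (yl m a b x)) -
      (mE v x * mE w (yu m a b x) +
      (Psi v w m a b x + w * Jh v w m a b (a K) x) *
        (Real.exp (v * x) * mE (-w) (yu m a b x))))) =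
      ∫ x in (0 : ℝ)..(a K), ((mE (-v) x * (el v w m a b x * mu w m a b x) -
        Real.exp (v * x) * Jh v w m a b (a K) x) +
      (Psi v w m a b x * (mu w m a b x * fu v w m a b x) +
        Jh v w m a b (a K) x * fu v w m a b x)) := icongr 0 (a K) e1
  rw [e2]
  have c1 : Continuous fun x => mE (-v) x * (el v w m a b x * mu w m a b x) := by fun_prop
  have c2 : Continuous fun x => Real.exp (v * x) * Jh v w m a b (a K) x := by fun_prop
  have c3 : Continuous fun x => Psi v w m a b x * (mu w m a b x * fu v w m a b x) := by fun_prop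
  have c4 : Continuous fun x => Jh v w m a b (a K) x * fu v w m a b x := by fun_prop
  have c5 : Continuous fun x => el v w m a b x * mu w m a b x := by fun_prop
  have c6 : Continuous fun x => mu w m a b x * fu v w m a b x := by fun_prop
  have c7 : Continuous fun x : ℝ => Real.exp (v * x) := by fun_prop
  have c8 : Continuous fun x => ∫ s in x..(a K), mu w m a b s * fu v w m a b s :=
    continuous_iff_continuousAt.2 fun x => (intervalIntegral.integral_hasDerivAt_left
      (c6.intervalIntegrable x (a K)) (c6.stronglyMeasurable.stronglyMeasurableAtFilter)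
      c6.continuousAt).continuousAt
  rw [iadd (csub c1 c2) (cadd c3 c4), isub c1 c2, iadd c3 c4]
  have p1 := parts c7 c5 (a K)
  have p2 := parts hel c6 (a K)
  have e3 : (∫ x in (0 : ℝ)..(a K), (∫ s in (0 : ℝ)..x, Real.exp (v * s)) *
      (el v w m a b x * mu w m a b x)) =
      ∫ x in (0 : ℝ)..(a K), mE (-v) x * (el v w m a b x * mu w m a b x) := by
    refine icongr 0 (a K) fun x => ?_
    congr 1
    unfold mE
    refine icongr 0 x fun s => ?_
    congr 1; ring
  have e4 : (∫ x in (0 : ℝ)..(a K), (∫ s in (0 : ℝ)..x, el v w m a b s) *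
      (mu w m a b x * fu v w m a b x)) =
      ∫ x in (0 : ℝ)..(a K), Psi v w m a b x * (mu w m a b x * fu v w m a b x) := rfl
  rw [e3] at p1
  rw [e4] at p2
  have e5 : (∫ x in (0 : ℝ)..(a K), Real.exp (v * x) * Jh v w m a b (a K) x) =
      ∫ x in (0 : ℝ)..(a K), Real.exp (v * x) * ∫ s in x..(a K),
        el v w m a b s * mu w m a b s := rfl
  have e6 : (∫ x in (0 : ℝ)..(a K),
      (el v w m a b x * (∫ s in x..(a K), mu w m a b s * fu v w m a b s) +
        (∫ s in x..(a K), el v w m a b s * mu w m a b s) * fu v w m a b x)) =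
      ∫ x in (0 : ℝ)..(a K),
      (el v w m a b x * (∫ s in x..(a K), mu w m a b s * fu v w m a b s) +
        Jh v w m a b (a K) x * fu v w m a b x) := rfl
  rw [e5, p1, ← p2, e6, iadd (cmul hel c8) c4]
  ring

/-- if the height is constant then `J = U_B U_L` -/
theorem const_case (h : CP m a b) (hb0 : b 0 = 0) (hb1 : b 1 = 0) {K : ℕ} (hK0 : 0 < K)
    (hK : K ≤ m) (hinc : ∀ j < K, a j ≤ a (j + 1))
    (hdec : ∀ j, K ≤ j → j < m → a (j + 1) ≤ a j)
    (hc : ∀ x ∈ Icc 0 (a K), mu w m a b x = mu w m a b 0) :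
    pJ v w a b m = mE v (a 1) * mE w (b m) := by
  have hm := h.two
  have ha1 : 0 < a 1 := cp_a_pos h (by omega) (by omega)
  have hle : ∀ j, 1 ≤ j → j ≤ K → a 1 ≤ a j := by
    intro j h1 h2
    induction j, h1 using Nat.le_induction with
    | base => exact le_rfl
    | succ n hn ih => exact (ih (by omega)).trans (hinc n (by omega))
  have h1K := hle K (by omega) le_rfl
  have hh0 : ∀ x ∈ Icc 0 (a K), hh m a b x = b m := by
    intro x hx
    have := (mE_mono w).injective (hc x hx)
    rw [this, hh_zero h hb0]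
  have hyl0 : ∀ x ∈ Icc 0 (a 1), yl m a b x = 0 := by
    intro x hx
    have e1 := yl_path_eq h (k := 0) (by omega) (by rw [h.a0]; simpa using ha1)
      (t := x / a 1) (by simpa using div_nonneg hx.1 ha1.le)
      (by simpa using (div_le_one ha1).2 hx.2)
    rw [pl_aff a 0 (by simpa using div_nonneg hx.1 ha1.le)
      (by simpa using (div_le_one ha1).2 hx.2),
      pl_aff b 0 (by simpa using div_nonneg hx.1 ha1.le)
      (by simpa using (div_le_one ha1).2 hx.2)] at e1
    simp only [Nat.cast_zero, sub_zero, zero_add, h.a0, hb0, hb1, mul_zero] at e1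
    rw [div_mul_cancel₀ _ ha1.ne'] at e1
    exact e1
  rcases h1K.eq_or_lt with he | hlt
  · -- rectangle
    rw [J_slice v w h hK hinc hdec, ← he]
    have e2 : ∀ x ∈ Icc 0 (a 1), el v w m a b x * mu w m a b x =
        mE w (b m) * Real.exp (-(v * x)) := by
      intro x hx
      have hx' : x ∈ Icc 0 (a K) := by rw [← he]; exact hx
      unfold mu el
      rw [hh0 x hx', hyl0 x hx]
      rw [mul_zero, sub_zero]; ring
    have e3 : (∫ x in (0 : ℝ)..(a 1), el v w m a b x * mu w m a b x) =
        ∫ x in (0 : ℝ)..(a 1), mE w (b m) * Real.exp (-(v * x)) := by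
      refine intervalIntegral.integral_congr fun x hx => ?_
      rw [uIcc_of_le ha1.le] at hx
      exact e2 x hx
    rw [e3, icm]
    unfold mE
    ring
  · exfalso
    have hK1 : 1 < K := by
      by_contra hn
      have : K = 1 := by omega
      rw [this] at hlt
      exact lt_irrefl _ hlt
    have hK2 : 2 ≤ m := hm
    -- vertex 2
    have c1 := h.conv 0 1 2 (by omega) (by omega) (by omega)
    rw [h.a0, hb0, hb1] at c1
    have hb2 : 0 < b 2 := by
      have : 0 < a 1 * b 2 := by linarith
      exact (mul_pos_iff_of_pos_left ha1).1 this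
    have h12 : a 1 < a 2 := by
      rcases (hinc 1 hK1).eq_or_lt with h3 | h3
      · exfalso
        have h3' : a 1 = a 2 := h3
        have hK3 : 2 < K := by
          by_contra hn
          have : K = 2 := by omega
          rw [this, ← h3'] at hlt
          exact lt_irrefl _ hlt
        have c2 := h.conv 1 2 K (by omega) (by omega) hK
        rw [← h3', hb1] at c2
        have : 0 < b 2 * (a K - a 1) := mul_pos hb2 (by linarith)
        linarith
      · exact h3
    have hm2 : 1 < m := by omega
    -- the point of the line 1 over a K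
    have hpos : 0 < yl m a b (a K) := by
      classical
      have hmem : 1 ∈ asc m a := by
        simp only [asc, Finset.mem_filter, Finset.mem_range]; exact ⟨hm2, h12⟩
      unfold yl
      rw [dif_pos (asc_nonempty h)]
      refine lt_of_lt_of_le ?_ (Finset.le_sup' (fun j => lin a b j (a K)) hmem)
      unfold lin
      rw [hb1]
      have h5 : 0 < a 2 - a 1 := by linarith
      have h6 : 0 < a K - a 1 := by linarith
      have h7 : 0 < (b 2 - 0) / (a 2 - a 1) * (a K - a 1) := by positivity
      show 0 < 0 + (b (1 + 1) - 0) / (a (1 + 1) - a 1) * (a K - a 1)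
      linarith
    have haK : 0 < a K := ha1.trans hlt
    have g0 : yu m a b 0 = b m := yu_zero h
    have g1 : yu m a b (a 1) = b m := by
      have := hh0 (a 1) ⟨ha1.le, hlt.le⟩
      unfold hh at this
      rw [hyl0 (a 1) ⟨ha1.le, le_rfl⟩] at this
      linarith
    have g2 : b m < yu m a b (a K) := by
      have := hh0 (a K) ⟨haK.le, le_rfl⟩
      unfold hh at this
      linarith
    have g3 := yu_conc h (s := 1 - a 1 / a K) (t := a 1 / a K)
      (by rw [sub_nonneg]; exact (div_le_one haK).2 hlt.le)
      (div_nonneg ha1.le haK.le) (by ring) 0 (a K)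
    rw [mul_zero, zero_add, div_mul_cancel₀ _ haK.ne', g0, g1] at g3
    have g4 : a 1 / a K * b m < a 1 / a K * yu m a b (a K) :=
      mul_lt_mul_of_pos_left g2 (div_pos ha1 haK)
    linarith

/-- **(Q), second part**: `ρ > 1` and `U_L X2_E ≤ d` imply `U_L P < J d`. -/
theorem Qslice (h : CP m a b) (hb0 : b 0 = 0) (hb1 : b 1 = 0) {K : ℕ} (hK0 : 0 < K)
    (hK : K < m) (hinc : ∀ j < K, a j ≤ a (j + 1))
    (hdec : ∀ j, K ≤ j → j < m → a (j + 1) ≤ a j)
    (hρ : mE v (a 1) * mE w (b m) < pJ v w a b m)
    (hE : mE w (b m) * -(∫ t in (K : ℝ)..m, (pe v w a b t)⁻¹ * dpl a t) ≤ pd v w a b m) :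
    mE w (b m) * pP v w a b m < pJ v w a b m * pd v w a b m := by
  have haK : 0 < a K := cp_a_pos h hK0 hK
  have hbm : 0 < b m := by have := h.left; rw [hb0] at this; exact this
  have hmu0 : mu w m a b 0 = mE w (b m) := by unfold mu; rw [hh_zero h hb0]
  have hmE0 : mE w 0 = 0 := mE_zero w
  rw [X2_slice v w h hK.le hdec, d_slice v w h hK.le hinc hdec, ← hmu0] at hE
  rw [P_slice v w h hK.le hinc hdec, J_slice v w h hK.le hinc hdec,
    d_slice v w h hK.le hinc hdec, ← hmu0]
  refine slice_core haK (mu_cont w) (el_cont v w) (fu_cont v w) (el_pos v w) (fu_pos v w)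
    ?_ ?_ ?_ ?_ hE ?_
  · intro x hx
    have := (mE_mono w).monotone (hh_nonneg h hK.le hx.1 hx.2)
    rw [hmE0] at this
    exact this
  · rw [hmu0]
    have := (mE_mono w) hbm
    rw [hmE0] at this
    exact this
  · intro x hx h1 s hs
    have h2 : hh m a b 0 ≤ hh m a b x := (mE_mono w).le_iff_le.1 h1
    exact (mE_mono w).monotone (hh_min h hs.1 hs.2 _ le_rfl h2)
  · intro x hx h1 s hs
    have h2 : hh m a b x < hh m a b 0 := (mE_mono w).lt_iff_lt.1 h1
    refine (mE_mono w).monotone ?_
    by_contra hn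
    push Not at hn
    rcases hx.1.eq_or_lt with h3 | h3
    · rw [← h3] at h2; exact lt_irrefl _ h2
    · have h4 : hh m a b x < hh m a b x := by
        -- both ends are above, so is the middle
        set cc := min (hh m a b 0) (hh m a b s) with hcc
        have h5 : hh m a b x < cc := lt_min h2 hn
        exact lt_of_lt_of_le h5 (hh_min h h3.le hs.1 cc (min_le_left _ _) (min_le_right _ _))
      exact lt_irrefl _ h4
  · by_contra hn
    push Not at hn
    have := const_case v w h hb0 hb1 hK0 hK.le hinc hdec hn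
    linarith

end

end Pool.Agent.Work.MP_b5407d_nc_h97
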