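import Mathlib

/-! # MP_b5407d_gt (POS), `r = 0`: the one-variable inequality behind (Q) (helper97) -/

set_option autoImplicit false

open MeasureTheory Set Filter Topology

namespace Pool.Agent.Work.MP_b5407d_nc_h97

theorem iadd {f g : ℝ → ℝ} (hf : Continuous f) (hg : Continuous g) (a b : ℝ) :
    (∫ x in a..b, (f x + g x)) = (∫ x in a..b, f x) + ∫ x in a..b, g x :=
  intervalIntegral.integral_add (hf.intervalIntegrable a b) (hg.intervalIntegrable a b)

theorem isub {f g : ℝ → ℝ} (hf : Continuous f) (hg : Continuous g) (a b : ℝ) :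
    (∫ x in a..b, (f x - g x)) = (∫ x in a..b, f x) - ∫ x in a..b, g x :=
  intervalIntegral.integral_sub (hf.intervalIntegrable a b) (hg.intervalIntegrable a b)

theorem icm (k : ℝ) (f : ℝ → ℝ) (a b : ℝ) :
    (∫ x in a..b, k * f x) = k * ∫ x in a..b, f x :=
  intervalIntegral.integral_const_mul k f

theorem icongr {f g : ℝ → ℝ} (a b : ℝ) (h : ∀ x, f x = g x) :
    (∫ x in a..b, f x) = ∫ x in a..b, g x := by
  have : f = g := funext h
  rw [this]

theorem cmul {f g : ℝ → ℝ} (hf : Continuous f) (hg : Continuous g) :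
    Continuous fun x => f x * g x := hf.mul hg

theorem cadd {f g : ℝ → ℝ} (hf : Continuous f) (hg : Continuous g) :
    Continuous fun x => f x + g x := hf.add hg

theorem csub {f g : ℝ → ℝ} (hf : Continuous f) (hg : Continuous g) :
    Continuous fun x => f x - g x := hf.sub hg

theorem ccm {f : ℝ → ℝ} (k : ℝ) (hf : Continuous f) :
    Continuous fun x => k * f x := continuous_const.mul hf

theorem cneg {f : ℝ → ℝ} (hf : Continuous f) : Continuous fun x => -f x := hf.neg

/-- integration by parts with a vanishing boundary term -/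
theorem parts {f g : ℝ → ℝ} (hf : Continuous f) (hg : Continuous g) (c : ℝ) :
    (∫ x in (0 : ℝ)..c, f x * ∫ s in x..c, g s) = ∫ x in (0 : ℝ)..c, (∫ s in (0 : ℝ)..x, f s) * g x := by
  have hF : ∀ x, HasDerivAt (fun x => ∫ s in (0 : ℝ)..x, f s) (f x) x := fun x =>
    intervalIntegral.integral_hasDerivAt_right (hf.intervalIntegrable 0 x)
      (hf.stronglyMeasurable.stronglyMeasurableAtFilter) hf.continuousAt
  have hG : ∀ x, HasDerivAt (fun x => ∫ s in x..c, g s) (-g x) x := fun x =>
    intervalIntegral.integral_hasDerivAt_left (hg.intervalIntegrable x c)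
      (hg.stronglyMeasurable.stronglyMeasurableAtFilter) hg.continuousAt
  have hFc : Continuous (fun x => ∫ s in (0 : ℝ)..x, f s) :=
    continuous_iff_continuousAt.2 fun x => (hF x).continuousAt
  have hGc : Continuous (fun x => ∫ s in x..c, g s) :=
    continuous_iff_continuousAt.2 fun x => (hG x).continuousAt
  have h := intervalIntegral.integral_eq_sub_of_hasDerivAt
    (f := fun x => (∫ s in (0 : ℝ)..x, f s) * ∫ s in x..c, g s)
    (f' := fun x => f x * (∫ s in x..c, g s) + (∫ s in (0 : ℝ)..x, f s) * (-g x))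
    (a := 0) (b := c) (fun x _ => (hF x).mul (hG x))
    (((hf.mul hGc).add (hFc.mul hg.neg)).intervalIntegrable 0 c)
  simp only [intervalIntegral.integral_same, mul_zero, zero_mul, sub_zero] at h
  rw [iadd (cmul hf hGc) (cmul hFc (cneg hg))] at h
  have e : (∫ x in (0 : ℝ)..c, (∫ s in (0 : ℝ)..x, f s) * -g x) =
      -∫ x in (0 : ℝ)..c, (∫ s in (0 : ℝ)..x, f s) * g x := by
    rw [← intervalIntegral.integral_neg]
    refine intervalIntegral.integral_congr fun x _ => ?_
    ring
  rw [e] at h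
  linarith

/-- the core inequality -/
theorem slice_core {c : ℝ} (hc : 0 < c) {μ e f : ℝ → ℝ} (hμ : Continuous μ) (he : Continuous e)
    (hf : Continuous f) (he0 : ∀ x, 0 < e x) (hf0 : ∀ x, 0 < f x)
    (hμ0 : ∀ x ∈ Icc 0 c, 0 ≤ μ x) (hU : 0 < μ 0)
    (hA : ∀ x ∈ Icc 0 c, μ 0 ≤ μ x → ∀ s ∈ Icc 0 x, μ 0 ≤ μ s)
    (hB : ∀ x ∈ Icc 0 c, μ x < μ 0 → ∀ s ∈ Icc x c, μ s ≤ μ x)
    (hE : μ 0 * (∫ x in (0 : ℝ)..c, f x) ≤ ∫ x in (0 : ℝ)..c, μ x * f x)
    (hne : ∃ x ∈ Icc 0 c, μ x ≠ μ 0) :
    μ 0 * (∫ x in (0 : ℝ)..c, (e x * (∫ s in x..c, μ s * f s) + (∫ s in x..c, e s * μ s) * f x)) <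
      (∫ x in (0 : ℝ)..c, e x * μ x) * ∫ x in (0 : ℝ)..c, μ x * f x := by
  set U := μ 0 with hUdef
  set d := ∫ x in (0 : ℝ)..c, μ x * f x with hd
  have hμf : Continuous fun x => μ x * f x := hμ.mul hf
  have heμ : Continuous fun x => e x * μ x := he.mul hμ
  have hDl : Continuous (fun x => ∫ s in x..c, μ s * f s) :=
    continuous_iff_continuousAt.2 fun x => (intervalIntegral.integral_hasDerivAt_left
      (hμf.intervalIntegrable x c) (hμf.stronglyMeasurable.stronglyMeasurableAtFilter)
      hμf.continuousAt).continuousAt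
  have hJl : Continuous (fun x => ∫ s in x..c, e s * μ s) :=
    continuous_iff_continuousAt.2 fun x => (intervalIntegral.integral_hasDerivAt_left
      (heμ.intervalIntegrable x c) (heμ.stronglyMeasurable.stronglyMeasurableAtFilter)
      heμ.continuousAt).continuousAt
  have hR : Continuous (fun x => ∫ s in (0 : ℝ)..x, f s) :=
    continuous_iff_continuousAt.2 fun x => (intervalIntegral.integral_hasDerivAt_right
      (hf.intervalIntegrable 0 x) (hf.stronglyMeasurable.stronglyMeasurableAtFilter)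
      hf.continuousAt).continuousAt
  -- the integrand
  set N : ℝ → ℝ := fun x => μ x * (d - U * ∫ s in (0 : ℝ)..x, f s) - U * ∫ s in x..c, μ s * f s
    with hN
  have hNc : Continuous N :=
    (hμ.mul (continuous_const.sub (continuous_const.mul hR))).sub (continuous_const.mul hDl)
  have hp := parts hf heμ c
  have key : (∫ x in (0 : ℝ)..c, e x * μ x) * d - U * (∫ x in (0 : ℝ)..c,
      (e x * (∫ s in x..c, μ s * f s) + (∫ s in x..c, e s * μ s) * f x)) =
      ∫ x in (0 : ℝ)..c, e x * N x := by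
    rw [iadd (cmul he hDl) (cmul hJl hf)]
    have e1 : (∫ x in (0 : ℝ)..c, (∫ s in x..c, e s * μ s) * f x) =
        ∫ x in (0 : ℝ)..c, f x * ∫ s in x..c, e s * μ s := by
      refine intervalIntegral.integral_congr fun x _ => ?_
      ring
    have e2 : (∫ x in (0 : ℝ)..c, e x * N x) = ∫ x in (0 : ℝ)..c, (d * (e x * μ x) -
        U * (e x * (∫ s in x..c, μ s * f s) + (∫ s in (0 : ℝ)..x, f s) * (e x * μ x))) := by
      refine icongr 0 c fun x => ?_
      simp only [hN]
      ring
    rw [e1, hp, e2, isub (ccm d heμ) (ccm U (cadd (cmul he hDl) (cmul hR heμ))), icm, icm,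
      iadd (cmul he hDl) (cmul hR heμ)]
    ring
  -- splitting
  have hsplit : ∀ x, d = (∫ s in (0 : ℝ)..x, μ s * f s) + ∫ s in x..c, μ s * f s := fun x =>
    (intervalIntegral.integral_add_adjacent_intervals (hμf.intervalIntegrable 0 x)
      (hμf.intervalIntegrable x c)).symm
  have hsplitf : ∀ x, (∫ s in (0 : ℝ)..c, f s) = (∫ s in (0 : ℝ)..x, f s) + ∫ s in x..c, f s :=
    fun x => (intervalIntegral.integral_add_adjacent_intervals (hf.intervalIntegrable 0 x)
      (hf.intervalIntegrable x c)).symm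
  have hD0 : ∀ x ∈ Icc 0 c, 0 ≤ ∫ s in x..c, μ s * f s := fun x hx =>
    intervalIntegral.integral_nonneg hx.2 fun s hs =>
      mul_nonneg (hμ0 s ⟨hx.1.trans hs.1, hs.2⟩) (hf0 s).le
  -- case A
  have hNA : ∀ x ∈ Icc 0 c, U ≤ μ x → (μ x - U) * (∫ s in x..c, μ s * f s) ≤ N x := by
    intro x hx h
    have h1 : U * (∫ s in (0 : ℝ)..x, f s) ≤ ∫ s in (0 : ℝ)..x, μ s * f s := by
      rw [← intervalIntegral.integral_const_mul]
      refine intervalIntegral.integral_mono_on hx.1 ((continuous_const.mul hf).intervalIntegrable 0 x)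
        (hμf.intervalIntegrable 0 x) fun s hs => ?_
      exact mul_le_mul_of_nonneg_right (hA x hx h s hs) (hf0 s).le
    have h2 := hsplit x
    have h3 := mul_nonneg (hμ0 x hx) (sub_nonneg.2 h1)
    simp only [hN]
    rw [h2]
    linarith
  have hNB : ∀ x ∈ Icc 0 c, μ x < U → 0 ≤ N x := by
    intro x hx h
    have h1 : μ x * U * (∫ s in x..c, f s) - U * (∫ s in x..c, μ s * f s) =
        ∫ s in x..c, (U * (μ x - μ s)) * f s := by
      rw [← icm, ← icm, ← isub (ccm _ hf) (ccm _ hμf)]
      refine icongr x c fun s => ?_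
      ring
    have h2 : 0 ≤ ∫ s in x..c, (U * (μ x - μ s)) * f s :=
      intervalIntegral.integral_nonneg hx.2 fun s hs =>
        mul_nonneg (mul_nonneg hU.le (sub_nonneg.2 (hB x hx h s hs))) (hf0 s).le
    have h3 := hsplitf x
    have h4 := mul_nonneg (hμ0 x hx) (sub_nonneg.2 hE)
    simp only [hN]
    rw [h3] at h4
    linarith
  have hN0 : ∀ x ∈ Icc 0 c, 0 ≤ N x := by
    intro x hx
    rcases lt_or_ge (μ x) U with h | h
    · exact hNB x hx h
    · exact le_trans (mul_nonneg (sub_nonneg.2 h) (hD0 x hx)) (hNA x hx h)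
  -- strictness
  have hpos : 0 < ∫ x in (0 : ℝ)..c, e x * N x := by
    have hcont : Continuous fun x => e x * N x := he.mul hNc
    have hnn : ∀ x ∈ Icc 0 c, 0 ≤ e x * N x := fun x hx => mul_nonneg (he0 x).le (hN0 x hx)
    -- a point where `N > 0`
    have hex : ∃ x ∈ Icc 0 c, 0 < N x := by
      by_contra hno
      push Not at hno
      have hz : ∀ x ∈ Icc 0 c, N x = 0 := fun x hx => le_antisymm (hno x hx) (hN0 x hx)
      -- no point above `U` in the open interval
      have hle : ∀ x ∈ Ico 0 c, μ x ≤ U := by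
        intro x hx
        by_contra hgt
        push Not at hgt
        have h1 := hNA x ⟨hx.1, hx.2.le⟩ hgt.le
        rw [hz x ⟨hx.1, hx.2.le⟩] at h1
        have h2 : 0 < ∫ s in x..c, μ s * f s := by
          have h3 : ∀ s ∈ Icc x c, 0 ≤ μ s * f s := fun s hs =>
            mul_nonneg (hμ0 s ⟨hx.1.trans hs.1, hs.2⟩) (hf0 s).le
          exact intervalIntegral.integral_pos hx.2 hμf.continuousOn
            (fun s hs => h3 s ⟨hs.1.le, hs.2⟩)
            ⟨x, ⟨le_rfl, hx.2.le⟩, mul_pos (hU.trans hgt) (hf0 x)⟩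
        have := mul_pos (sub_pos.2 hgt) h2
        linarith
      have hle' : ∀ x ∈ Icc 0 c, μ x ≤ U := by
        intro x hx
        rcases hx.2.eq_or_lt with h | h
        · rw [h]
          have hcl : c ∈ closure (Ico 0 c) := by
            rw [closure_Ico hc.ne]; exact ⟨hc.le, le_rfl⟩
          exact (closure_minimal (s := Ico 0 c) (t := {x | μ x ≤ U}) hle
            (isClosed_le hμ continuous_const)) hcl
        · exact hle x ⟨hx.1, h⟩
      obtain ⟨x0, hx0, hx1⟩ := hne
      have hlt : μ x0 < U := lt_of_le_of_ne (hle' x0 hx0) hx1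
      have h5 : 0 < ∫ x in (0 : ℝ)..c, (U - μ x) * f x := by
        exact intervalIntegral.integral_pos hc
          ((continuous_const.sub hμ).mul hf).continuousOn
          (fun s hs => mul_nonneg (sub_nonneg.2 (hle' s ⟨hs.1.le, hs.2⟩)) (hf0 s).le)
          ⟨x0, hx0, mul_pos (sub_pos.2 hlt) (hf0 x0)⟩
      have h6 : (∫ x in (0 : ℝ)..c, (U - μ x) * f x) = U * (∫ x in (0 : ℝ)..c, f x) - d := by
        rw [← icm, hd, ← isub (ccm _ hf) hμf]
        refine icongr 0 c fun s => ?_
        ring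
      linarith
    obtain ⟨x0, hx0, hx1⟩ := hex
    exact intervalIntegral.integral_pos hc hcont.continuousOn
      (fun s hs => hnn s ⟨hs.1.le, hs.2⟩) ⟨x0, hx0, mul_pos (he0 x0) hx1⟩
  linarith

end Pool.Agent.Work.MP_b5407d_nc_h97
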