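import Pool.Agent.Work.MP_b5407d_pos_helper13.Ppos
import Pool.Agent.Work.MP_b5407d_nc_helper97.SliceCore

/-! # MP_b5407d_gt (POS), `r = 0`: the upper boundary, path integrals as slice integrals (helper97) -/

set_option autoImplicit false

open MeasureTheory Set Filter Topology

namespace Pool.Agent.Work.MP_b5407d_nc_h97

open Pool.LBM Pool.LBM.Path Pool.Agent.Work.MP_b5407d_pos_h13

section
variable {m : ℕ} {a b : ℕ → ℝ}

open Classical in
/-- upper edges -/
noncomputable def dsc (m : ℕ) (a : ℕ → ℝ) : Finset ℕ :=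
  (Finset.range m).filter (fun j => a (j + 1) < a j)

open Classical in
/-- upper boundary -/
noncomputable def yu (m : ℕ) (a b : ℕ → ℝ) (x : ℝ) : ℝ :=
  if h : (dsc m a).Nonempty then (dsc m a).inf' h (fun j => lin a b j x) else 0

theorem yu_cont : Continuous (yu m a b) := by
  unfold yu
  by_cases h : (dsc m a).Nonempty
  · simp only [h, dif_pos]
    exact Continuous.finset_inf'_apply h (fun j _ => lin_cont j)
  · simp only [h, dif_neg, not_false_iff]
    exact continuous_const

theorem le_lin {j : ℕ} (hj : j < m) (haj : a (j + 1) < a j) {z : R2}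
    (hz : z ∈ KK m a b) : z.2 ≤ lin a b j z.1 := by
  have h1 := hz.2 j hj
  have h2 : a (j + 1) - a j < 0 := by linarith
  have h2' : a (j + 1) - a j ≠ 0 := h2.ne
  have h3 : (a (j + 1) - a j) * lin a b j z.1 =
      (a (j + 1) - a j) * b j + (b (j + 1) - b j) * (z.1 - a j) := by
    unfold lin; field_simp
  have h4 : (a (j + 1) - a j) * lin a b j z.1 ≤ (a (j + 1) - a j) * z.2 := by
    rw [h3]; linarith
  by_contra hn
  push Not at hn
  have := mul_lt_mul_of_neg_left hn h2
  linarith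

theorem dsc_nonempty (h : CP m a b) : (dsc m a).Nonempty := by
  classical
  have h2 := h.two
  refine ⟨m - 1, ?_⟩
  have := cp_a_pos h (k := m - 1) (by omega) (by omega)
  simp only [dsc, Finset.mem_filter, Finset.mem_range]
  refine ⟨by omega, ?_⟩
  have e : m - 1 + 1 = m := by omega
  rw [e, h.am]; exact this

theorem le_yu (h : CP m a b) {z : R2} (hz : z ∈ KK m a b) : z.2 ≤ yu m a b z.1 := by
  classical
  unfold yu
  rw [dif_pos (dsc_nonempty h)]
  refine Finset.le_inf' _ _ fun j hj => ?_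
  simp only [dsc, Finset.mem_filter, Finset.mem_range] at hj
  exact le_lin hj.1 hj.2 hz

theorem le_yu_path (h : CP m a b) {t : ℝ} (h0 : 0 ≤ t) (hm : t ≤ m) :
    pl b t ≤ yu m a b (pl a t) := le_yu h (KK_pl h h0 hm)

theorem yu_path_eq (h : CP m a b) {k : ℕ} (hk : k < m) (hak : a (k + 1) < a k) {t : ℝ}
    (h1 : (k : ℝ) ≤ t) (h2 : t ≤ k + 1) : yu m a b (pl a t) = pl b t := by
  classical
  have hkm : (k : ℝ) + 1 ≤ m := by exact_mod_cast hk
  refine le_antisymm ?_ (le_yu_path h (le_trans (Nat.cast_nonneg k) h1) (h2.trans hkm))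
  unfold yu
  rw [dif_pos (dsc_nonempty h)]
  have hmem : k ∈ dsc m a := by
    simp only [dsc, Finset.mem_filter, Finset.mem_range]; exact ⟨hk, hak⟩
  refine le_trans (Finset.inf'_le (fun j => lin a b j (pl a t)) hmem) (le_of_eq ?_)
  rw [pl_aff a k h1 h2, pl_aff b k h1 h2]
  unfold lin
  have : a (k + 1) - a k ≠ 0 := by linarith
  field_simp
  ring

theorem lin_comb (j : ℕ) {s t : ℝ} (hst : s + t = 1) (x y : ℝ) :
    lin a b j (s * x + t * y) = s * lin a b j x + t * lin a b j y := by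
  have : t = 1 - s := by linarith
  subst this
  unfold lin
  ring

theorem yu_conc (h : CP m a b) {s t : ℝ} (hs : 0 ≤ s) (ht : 0 ≤ t) (hst : s + t = 1) (x y : ℝ) :
    s * yu m a b x + t * yu m a b y ≤ yu m a b (s * x + t * y) := by
  classical
  unfold yu
  rw [dif_pos (dsc_nonempty h), dif_pos (dsc_nonempty h), dif_pos (dsc_nonempty h)]
  refine Finset.le_inf' _ _ fun j hj => ?_
  rw [lin_comb j hst]
  have h1 := mul_le_mul_of_nonneg_left
    (Finset.inf'_le (fun j => lin a b j x) hj) hs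
  have h2 := mul_le_mul_of_nonneg_left
    (Finset.inf'_le (fun j => lin a b j y) hj) ht
  exact add_le_add h1 h2

theorem yl_conv (h : CP m a b) {s t : ℝ} (hs : 0 ≤ s) (ht : 0 ≤ t) (hst : s + t = 1) (x y : ℝ) :
    yl m a b (s * x + t * y) ≤ s * yl m a b x + t * yl m a b y := by
  classical
  unfold yl
  rw [dif_pos (asc_nonempty h), dif_pos (asc_nonempty h), dif_pos (asc_nonempty h)]
  refine Finset.sup'_le _ _ fun j hj => ?_
  rw [lin_comb j hst]
  have h1 := mul_le_mul_of_nonneg_left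
    (Finset.le_sup' (fun j => lin a b j x) hj) hs
  have h2 := mul_le_mul_of_nonneg_left
    (Finset.le_sup' (fun j => lin a b j y) hj) ht
  exact add_le_add h1 h2

/-- the height of the slice -/
noncomputable def hh (m : ℕ) (a b : ℕ → ℝ) (x : ℝ) : ℝ := yu m a b x - yl m a b x

theorem hh_cont : Continuous (hh m a b) := yu_cont.sub yl_cont

theorem hh_conc (h : CP m a b) {s t : ℝ} (hs : 0 ≤ s) (ht : 0 ≤ t) (hst : s + t = 1) (x y : ℝ) :
    s * hh m a b x + t * hh m a b y ≤ hh m a b (s * x + t * y) := by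
  have h1 := yu_conc h hs ht hst x y
  have h2 := yl_conv h hs ht hst x y
  unfold hh
  linarith

/-- between two points the height is at least the minimum -/
theorem hh_min (h : CP m a b) {x y z : ℝ} (hxy : x ≤ y) (hyz : y ≤ z) (c : ℝ)
    (hx : c ≤ hh m a b x) (hz : c ≤ hh m a b z) : c ≤ hh m a b y := by
  rcases (hxy.trans hyz).eq_or_lt with e | e
  · have : y = x := by linarith
    rw [this]; exact hx
  · have h0 : 0 < z - x := by linarith
    have h1 := hh_conc h (s := (z - y) / (z - x)) (t := (y - x) / (z - x))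
      (div_nonneg (by linarith) h0.le) (div_nonneg (by linarith) h0.le)
      (by field_simp; ring) x z
    have e1 : (z - y) / (z - x) * x + (y - x) / (z - x) * z = y := by field_simp; ring
    rw [e1] at h1
    have h2 := mul_le_mul_of_nonneg_left hx (div_nonneg (by linarith : 0 ≤ z - y) h0.le)
    have h3 := mul_le_mul_of_nonneg_left hz (div_nonneg (by linarith : 0 ≤ y - x) h0.le)
    have e2 : (z - y) / (z - x) * c + (y - x) / (z - x) * c = c := by field_simp; ring
    linarith

theorem hh_min_strict (h : CP m a b) {x y z : ℝ} (hxy : x < y) (hyz : y ≤ z) (c : ℝ)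
    (hx : c ≤ hh m a b x) (hz : c < hh m a b z) : c < hh m a b y := by
  have h0 : 0 < z - x := by linarith
  have h1 := hh_conc h (s := (z - y) / (z - x)) (t := (y - x) / (z - x))
    (div_nonneg (by linarith) h0.le) (div_nonneg (by linarith) h0.le)
    (by field_simp; ring) x z
  have e1 : (z - y) / (z - x) * x + (y - x) / (z - x) * z = y := by field_simp; ring
  rw [e1] at h1
  have h2 := mul_le_mul_of_nonneg_left hx (div_nonneg (by linarith : 0 ≤ z - y) h0.le)
  have h3 := mul_lt_mul_of_pos_left hz (div_pos (by linarith : 0 < y - x) h0)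
  have e2 : (z - y) / (z - x) * c + (y - x) / (z - x) * c = c := by field_simp; ring
  linarith

theorem yl_zero (h : CP m a b) (hb : b 0 = 0) : yl m a b 0 = 0 := by
  have h2 := h.two
  have h1 := yl_path_eq h (k := 0) (by omega) (by
    rw [h.a0]; exact cp_a_pos h (by omega) (by omega)) (t := 0) (by simp) (by simp)
  rw [pl_zero, pl_zero, h.a0, hb] at h1
  exact h1

theorem yu_zero (h : CP m a b) : yu m a b 0 = b m := by
  have h2 := h.two
  have e : m - 1 + 1 = m := by omega
  have e' : ((m - 1 : ℕ) : ℝ) + 1 = m := by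
    have : ((m - 1 + 1 : ℕ) : ℝ) = m := by rw [e]
    push_cast at this; exact this
  have h1 := yu_path_eq h (k := m - 1) (by omega) (by
    rw [e, h.am]; exact cp_a_pos h (by omega) (by omega)) (t := m) (by linarith) (by linarith)
  rw [pl_nat, pl_nat, h.am] at h1
  exact h1

theorem hh_zero (h : CP m a b) (hb : b 0 = 0) : hh m a b 0 = b m := by
  unfold hh; rw [yu_zero h, yl_zero h hb, sub_zero]

/-- the height is nonnegative over the polygon -/
theorem hh_nonneg (h : CP m a b) {K : ℕ} (hK : K ≤ m) {x : ℝ} (h0 : 0 ≤ x) (h1 : x ≤ a K) :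
    0 ≤ hh m a b x := by
  have hivt := intermediate_value_Icc (Nat.cast_nonneg (α := ℝ) K) (cont_pl a).continuousOn
  rw [pl_zero, pl_nat, h.a0] at hivt
  obtain ⟨t, ht, rfl⟩ := hivt ⟨h0, h1⟩
  have hKm : (K : ℝ) ≤ m := by exact_mod_cast hK
  have h2 := le_yu_path h ht.1 (ht.2.trans hKm)
  have h3 := yl_path_le h ht.1 (ht.2.trans hKm)
  unfold hh; linarith

/-! ### path integrals -/

theorem slice_prim {g : ℝ → ℝ} (hg : Continuous g) (s t : ℝ) :
    (∫ τ in s..t, g (pl a τ) * dpl a τ) = ∫ x in (pl a s)..(pl a t), g x := by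
  have hF : ∀ x, HasDerivAt (fun x => ∫ s in (0 : ℝ)..x, g s) (g x) x := fun x =>
    intervalIntegral.integral_hasDerivAt_right (hg.intervalIntegrable 0 x)
      (hg.stronglyMeasurable.stronglyMeasurableAtFilter) hg.continuousAt
  have hFc : Continuous (fun x => ∫ s in (0 : ℝ)..x, g s) :=
    continuous_iff_continuousAt.2 fun x => (hF x).continuousAt
  have h1 := ftc (F := fun τ => ∫ s in (0 : ℝ)..(pl a τ), g s)
    (F' := fun τ => g (pl a τ) * dpl a τ) (hFc.comp (cont_pl a))
    (fun τ hτ => (hF (pl a τ)).comp τ (deriv_pl a hτ)) (s := s) (t := t)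
    (mul_ii a (hg.comp (cont_pl a)) s t)
  rw [h1]
  exact intervalIntegral.integral_interval_sub_left (hg.intervalIntegrable _ _)
    (hg.intervalIntegrable _ _)

theorem low_int {K : ℕ} (hK : K ≤ m) (hmon : ∀ j < K, a j ≤ a (j + 1)) {G g : ℝ → ℝ}
    (hg : Continuous g)
    (hGg : ∀ k < K, a k < a (k + 1) → ∀ t : ℝ, (k : ℝ) ≤ t → t ≤ k + 1 → G t = g (pl a t)) :
    (∫ t in (0 : ℝ)..K, G t * dpl a t) = ∫ x in (a 0)..(a K), g x := by
  have h1 := slice_prim (a := a) hg 0 K
  rw [pl_zero, pl_nat] at h1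
  rw [← h1]
  have hKm : (K : ℝ) ≤ m := by exact_mod_cast hK
  refine intervalIntegral.integral_congr_ae ?_
  have hne : ∀ᵐ s : ℝ, s ≠ (K : ℝ) := by rw [ae_iff]; simp
  filter_upwards [ae_Nt, hne] with s hs hst hsI
  rw [uIoc_of_le (Nat.cast_nonneg K)] at hsI
  have hlt : s < K := lt_of_le_of_ne hsI.2 hst
  obtain ⟨k, hk, hk1, hk2, hd⟩ := edge_cases (m := m) hsI.1 (by linarith) hs
  have hkK : k < K := by
    have : (k : ℝ) < K := by linarith
    exact_mod_cast this
  rw [hd a]
  rcases (hmon k hkK).eq_or_lt with h3 | h3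
  · rw [h3, sub_self, mul_zero, mul_zero]
  · rw [hGg k hkK h3 s hk1.le hk2.le]

theorem up_int {K : ℕ} (hK : K ≤ m) (hmon : ∀ j, K ≤ j → j < m → a (j + 1) ≤ a j) {G g : ℝ → ℝ}
    (hg : Continuous g)
    (hGg : ∀ k, K ≤ k → k < m → a (k + 1) < a k → ∀ t : ℝ, (k : ℝ) ≤ t → t ≤ k + 1 →
      G t = g (pl a t)) :
    (∫ t in (K : ℝ)..m, G t * dpl a t) = ∫ x in (a K)..(a m), g x := by
  have h1 := slice_prim (a := a) hg K m
  rw [pl_nat, pl_nat] at h1
  rw [← h1]
  have hKm : (K : ℝ) ≤ m := by exact_mod_cast hK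
  refine intervalIntegral.integral_congr_ae ?_
  have hne : ∀ᵐ s : ℝ, s ≠ (m : ℝ) := by rw [ae_iff]; simp
  filter_upwards [ae_Nt, hne] with s hs hst hsI
  rw [uIoc_of_le hKm] at hsI
  have hlt : s < m := lt_of_le_of_ne hsI.2 hst
  have hs0 : 0 < s := lt_of_le_of_lt (Nat.cast_nonneg K) hsI.1
  obtain ⟨k, hk, hk1, hk2, hd⟩ := edge_cases (m := m) hs0 hlt hs
  have hkK : K ≤ k := by
    have h5 := hsI.1
    have : (K : ℝ) < k + 1 := by linarith
    have : K < k + 1 := by exact_mod_cast this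
    omega
  rw [hd a]
  rcases (hmon k hkK hk).eq_or_lt with h3 | h3
  · rw [h3, sub_self, mul_zero, mul_zero]
  · rw [hGg k hkK hk h3 s hk1.le hk2.le]

/-- a path integral as a slice integral -/
theorem path_slice (h : CP m a b) {K : ℕ} (hK : K ≤ m) (hinc : ∀ j < K, a j ≤ a (j + 1))
    (hdec : ∀ j, K ≤ j → j < m → a (j + 1) ≤ a j) {G gl gu : ℝ → ℝ} (hG : Continuous G)
    (hgl : Continuous gl) (hgu : Continuous gu)
    (h1 : ∀ k < K, a k < a (k + 1) → ∀ t : ℝ, (k : ℝ) ≤ t → t ≤ k + 1 → G t = gl (pl a t))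
    (h2 : ∀ k, K ≤ k → k < m → a (k + 1) < a k → ∀ t : ℝ, (k : ℝ) ≤ t → t ≤ k + 1 →
      G t = gu (pl a t)) :
    (∫ t in (0 : ℝ)..m, G t * dpl a t) = ∫ x in (0 : ℝ)..(a K), (gl x - gu x) := by
  rw [← intervalIntegral.integral_add_adjacent_intervals (mul_ii a hG 0 K) (mul_ii a hG K m),
    low_int hK hinc hgl h1, up_int hK hdec hgu h2, h.a0, h.am,
    intervalIntegral.integral_symm 0 (a K), isub hgl hgu]
  ring

end

end Pool.Agent.Work.MP_b5407d_nc_h97
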